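import Pool.Agent.N719.QC.Rat

namespace N719QC

open Finset Polynomial

/-- the generator of the maximal ideal -/
noncomputable def PhiO (n : ℕ) (hn : 2 ≤ n) : OO n hn := ⟨ev (cyclotomic n ℤ), ev_mem n hn _⟩

/-- the unit `q` -/
noncomputable def qO (n : ℕ) (hn : 2 ≤ n) : (OO n hn)ˣ := mkU n hn X (cyc_ndvd_X n hn)

/-- the embedding in the field -/
noncomputable def iO (n : ℕ) (hn : 2 ≤ n) : OO n hn →+* RatFunc ℚ := (OO n hn).subtype

theorem iO_inj (n : ℕ) (hn : 2 ≤ n) : Function.Injective (iO n hn) := Subtype.coe_injective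

theorem iO_q (n : ℕ) (hn : 2 ≤ n) (z : ℤ) : iO n hn ((qO n hn ^ z : (OO n hn)ˣ) : OO n hn) = RatFunc.X ^ z := by
  have h1 : ((Units.map ((iO n hn : OO n hn →+* RatFunc ℚ) : OO n hn →* RatFunc ℚ) (qO n hn) : (RatFunc ℚ)ˣ) : RatFunc ℚ) = RatFunc.X := by
    rw [← ev_X]; rfl
  have h2 : iO n hn ((qO n hn ^ z : (OO n hn)ˣ) : OO n hn)
      = ((Units.map ((iO n hn : OO n hn →+* RatFunc ℚ) : OO n hn →* RatFunc ℚ) (qO n hn ^ z) : (RatFunc ℚ)ˣ) : RatFunc ℚ) := rfl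
  rw [h2, map_zpow, Units.val_zpow_eq_zpow_val, h1]

theorem phi_dvd (n : ℕ) (hn : 2 ≤ n) : PhiO n hn ∣ ((qO n hn ^ (n : ℤ) : (OO n hn)ˣ) : OO n hn) - 1 := by
  obtain ⟨W, hW⟩ := cyclotomic.dvd_X_pow_sub_one n ℤ
  refine ⟨⟨ev W, ev_mem n hn _⟩, ?_⟩
  apply iO_inj n hn
  rw [map_sub, map_one, iO_q, map_mul, zpow_natCast, ← ev_X]
  have := congrArg ev hW
  rw [map_sub, map_pow, map_one, map_mul] at this
  exact this

theorem phi_dvd2 (n n2 : ℕ) (hn : 2 ≤ n) (h : n = 2 * n2) :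
    PhiO n hn ∣ ((qO n hn ^ (n2 : ℤ) : (OO n hn)ˣ) : OO n hn) + 1 := by
  have h1 : cyclotomic n ℤ ∣ (X ^ n2 - 1) * (X ^ n2 + 1) := by
    have h2 := cyclotomic.dvd_X_pow_sub_one n ℤ
    have h3 : (X ^ n - 1 : ℤ[X]) = (X ^ n2 - 1) * (X ^ n2 + 1) := by
      rw [h, pow_mul']; ring
    rwa [h3] at h2
  rcases (cyc_prime n (by omega)).dvd_or_dvd h1 with h2 | h2
  · have := Nat.le_of_dvd (by omega) (cyc_ndvd n (by omega) n2 h2)
    omega
  · obtain ⟨W, hW⟩ := h2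
    refine ⟨⟨ev W, ev_mem n hn _⟩, ?_⟩
    apply iO_inj n hn
    rw [map_add, map_one, iO_q, map_mul, zpow_natCast, ← ev_X]
    have := congrArg ev hW
    rw [map_add, map_pow, map_one, map_mul] at this
    exact this

theorem two_unit (n : ℕ) (hn : 2 ≤ n) : IsUnit (2 : OO n hn) := by
  have h := (mkU n hn (C 2) (cyc_ndvd_C n hn 2 (by norm_num))).isUnit
  have h2 : ((mkU n hn (C 2) (cyc_ndvd_C n hn 2 (by norm_num)) : (OO n hn)ˣ) : OO n hn) = 2 := by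
    apply iO_inj n hn
    have h3 : iO n hn 2 = 2 := map_ofNat _ 2
    have h4 : iO n hn ((mkU n hn (C 2) (cyc_ndvd_C n hn 2 (by norm_num)) : (OO n hn)ˣ) : OO n hn) = ev (C 2) := rfl
    have h5 : ev (C 2) = 2 := by rw [show (C 2 : ℤ[X]) = 2 from rfl, map_ofNat]
    exact h4.trans (h5.trans h3.symm)
  rwa [h2] at h

/-- the sum in `ℚ(q)` -/
noncomputable def Sgen (d n w : ℕ) (r : ℤ) : RatFunc ℚ :=
  ∑ k ∈ range n, RatFunc.X ^ (w * k) * ((1 - RatFunc.X ^ (2 * (d : ℤ) * k + r)) / (1 - RatFunc.X)) *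
    ((∏ j ∈ range k, (1 - RatFunc.X ^ r * (RatFunc.X ^ d) ^ j)) /
      ∏ j ∈ range k, (1 - (RatFunc.X ^ d) * (RatFunc.X ^ d) ^ j)) ^ d

theorem fin (n d w s : ℕ) (hn : 2 ≤ n) (r ee : ℤ) (hd : Odd d) (hd5 : 5 ≤ d) (hcop : Nat.Coprime n d)
    (hw : (w : ℤ) = ee * (d - 2) - r * (d - 1))
    (hdvd : PhiO n hn ^ s ∣ ∑ j ∈ range n, tm (qO n hn ^ (d : ℤ)) (qO n hn ^ r) (qO n hn ^ ee) d n
      ((1 - C ((qO n hn ^ r : (OO n hn)ˣ) : OO n hn) * X) ^ (d - 1)) j) :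
    ∃ A B : ℤ[X], ¬ cyclotomic n ℤ ∣ B ∧ Sgen d n w r = ev (cyclotomic n ℤ ^ s * A) / ev B := by
  obtain ⟨y, hy⟩ := hdvd
  have hX0 : (RatFunc.X : RatFunc ℚ) ≠ 0 := RatFunc.X_ne_zero
  have h1X : (1 - RatFunc.X : RatFunc ℚ) ≠ 0 := by
    have := X_zpow_ne_one 1 (by norm_num)
    rw [zpow_one] at this
    exact sub_ne_zero.2 this.symm
  -- image of the sum
  set D0 : RatFunc ℚ := (RatFunc.X ^ r) ^ ((d - 1) * (n - 1)) *
    (∏ j ∈ range (n - 1), (1 - (RatFunc.X ^ (d : ℤ)) ^ (j + 1))) ^ d with hD0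
  have hG : iO n hn (∑ j ∈ range n, tm (qO n hn ^ (d : ℤ)) (qO n hn ^ r) (qO n hn ^ ee) d n
      ((1 - C ((qO n hn ^ r : (OO n hn)ˣ) : OO n hn) * X) ^ (d - 1)) j)
      = D0 * (1 - RatFunc.X) * Sgen d n w r := by
    have hu : ∀ z : ℤ, ((Units.map ((iO n hn : OO n hn →+* RatFunc ℚ) : OO n hn →* RatFunc ℚ) (qO n hn ^ z) : (RatFunc ℚ)ˣ) : RatFunc ℚ)
      = RatFunc.X ^ z := fun z => iO_q n hn z
    rw [map_sum_tm, Sgen, mul_sum]
    refine sum_congr rfl fun k hk => ?_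
    have hk' := mem_range.1 hk
    have hE : Polynomial.map (iO n hn) ((1 - C ((qO n hn ^ r : (OO n hn)ˣ) : OO n hn) * X) ^ (d - 1))
        = (1 - C ((Units.map ((iO n hn : OO n hn →+* RatFunc ℚ) : OO n hn →* RatFunc ℚ) (qO n hn ^ r) : (RatFunc ℚ)ˣ) : RatFunc ℚ) * X) ^ (d - 1) := by
      rw [hu]
      simp only [Polynomial.map_pow, Polynomial.map_sub, Polynomial.map_one, Polynomial.map_mul, Polynomial.map_C,
        Polynomial.map_X, iO_q]
    rw [hE, tm_E0 _ _ _ (RatFunc.X ^ w) d n k hd (by omega) hk' ?_ ?_, hu, hu]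
    · rw [← hD0]
      have e1 : RatFunc.X ^ r * (RatFunc.X ^ (d : ℤ)) ^ (2 * k) = (RatFunc.X : RatFunc ℚ) ^ (2 * (d : ℤ) * k + r) := by
        rw [← zpow_natCast (RatFunc.X ^ (d : ℤ)) (2 * k), ← zpow_mul, ← zpow_add₀ hX0]
        congr 1; push_cast; ring
      have e2 : (RatFunc.X : RatFunc ℚ) ^ (w * k) = (RatFunc.X ^ w) ^ k := pow_mul _ _ _
      have e3 : ∏ j ∈ range k, (1 - (RatFunc.X ^ (d : ℤ) : RatFunc ℚ) ^ (j + 1))
          = ∏ j ∈ range k, (1 - (RatFunc.X ^ d) * (RatFunc.X ^ d) ^ j) := by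
        refine prod_congr rfl fun j _ => ?_
        rw [zpow_natCast, pow_succ, mul_comm]
      have e4 : ∏ j ∈ range k, (1 - RatFunc.X ^ r * (RatFunc.X ^ (d : ℤ) : RatFunc ℚ) ^ j)
          = ∏ j ∈ range k, (1 - RatFunc.X ^ r * (RatFunc.X ^ d) ^ j) := by
        refine prod_congr rfl fun j _ => ?_
        rw [zpow_natCast]
      rw [e1, e2, e3, e4]
      generalize ((∏ j ∈ range k, (1 - RatFunc.X ^ r * (RatFunc.X ^ d : RatFunc ℚ) ^ j)) /
        ∏ j ∈ range k, (1 - (RatFunc.X ^ d : RatFunc ℚ) * (RatFunc.X ^ d) ^ j)) ^ d = V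
      generalize (RatFunc.X ^ w : RatFunc ℚ) ^ k = V2
      field_simp
    · rw [hu, hu, ← zpow_natCast, ← zpow_natCast, ← zpow_natCast, ← zpow_mul, ← zpow_mul, ← zpow_add₀ hX0]
      congr 1
      rw [hw]
      have e1 : ((d - 1 : ℕ) : ℤ) = d - 1 := by omega
      have e2 : ((d - 2 : ℕ) : ℤ) = d - 2 := by omega
      rw [e1, e2]; ring
    · intro i _
      rw [hu, ← zpow_natCast, ← zpow_mul]
      have : (d : ℤ) * ((i + 1 : ℕ) : ℤ) ≠ 0 := by
        have hd0 : (0 : ℤ) < d := by omega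
        have hi0 : (0 : ℤ) < ((i + 1 : ℕ) : ℤ) := by omega
        exact (mul_pos hd0 hi0).ne'
      exact sub_ne_zero.2 (X_zpow_ne_one _ this).symm
  -- the denominator is a unit
  have hU : ∃ U : OO n hn, IsUnit U ∧ iO n hn U = D0 * (1 - RatFunc.X) := by
    have hnd : ∀ k : ℕ, ¬ n ∣ k → ¬ cyclotomic n ℤ ∣ 1 - X ^ k := by
      intro k hk h
      have h' := (dvd_neg.2 h)
      rw [neg_sub] at h'
      exact hk (cyc_ndvd n (by omega) k h')
    refine ⟨((qO n hn ^ r : (OO n hn)ˣ) : OO n hn) ^ ((d - 1) * (n - 1)) *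
      (∏ j ∈ range (n - 1), (⟨ev (1 - X ^ (d * (j + 1))), ev_mem n hn _⟩ : OO n hn)) ^ d *
        ⟨ev (1 - X ^ 1), ev_mem n hn _⟩, ?_, ?_⟩
    · refine ((Units.isUnit _).pow _).mul (IsUnit.pow _ ?_) |>.mul ?_
      · refine prod_induction _ IsUnit (fun a b ha hb => ha.mul hb) isUnit_one ?_
        intro j hj
        have hj' := mem_range.1 hj
        have hnj : ¬ n ∣ d * (j + 1) := by
          intro h
          have := Nat.le_of_dvd (by omega) (hcop.dvd_of_dvd_mul_left h)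
          omega
        exact (mkU n hn _ (hnd _ hnj)).isUnit
      · have h1 : ¬ n ∣ 1 := by
          intro h
          have := Nat.le_of_dvd (by omega) h
          omega
        exact (mkU n hn _ (hnd _ h1)).isUnit
    · rw [map_mul, map_mul, map_pow, map_pow, map_prod, iO_q, hD0]
      congr 1
      · congr 2
        refine prod_congr rfl fun j _ => ?_
        have : iO n hn (⟨ev (1 - X ^ (d * (j + 1))), ev_mem n hn _⟩ : OO n hn) = ev (1 - X ^ (d * (j + 1))) := rfl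
        rw [this, map_sub, map_one, map_pow, ev_X, zpow_natCast, pow_mul]
      · have : iO n hn (⟨ev (1 - X ^ 1), ev_mem n hn _⟩ : OO n hn) = ev (1 - X ^ 1) := rfl
        rw [this, map_sub, map_one, map_pow, ev_X, pow_one]
  obtain ⟨U, ⟨u, hu⟩, hU2⟩ := hU
  rw [hy, map_mul, map_pow, ← hU2, ← hu] at hG
  have hS : Sgen d n w r = iO n hn (PhiO n hn) ^ s * iO n hn (y * ((u⁻¹ : (OO n hn)ˣ) : OO n hn)) := by
    rw [map_mul, ← mul_assoc, hG]
    have : iO n hn (u : OO n hn) * iO n hn ((u⁻¹ : (OO n hn)ˣ) : OO n hn) = 1 := by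
      rw [← map_mul, ← Units.val_mul]; simp
    linear_combination (-(Sgen d n w r)) * this
  obtain ⟨a, b, hb, hab⟩ := (y * ((u⁻¹ : (OO n hn)ˣ) : OO n hn)).2
  refine ⟨a, b, hb, ?_⟩
  have hb0 : b ≠ 0 := by rintro rfl; exact hb (dvd_zero _)
  rw [eq_div_iff (ev_ne hb0), hS, map_mul ev, map_pow ev, ← hab]
  have h1 : iO n hn (PhiO n hn) = ev (cyclotomic n ℤ) := rfl
  have h2 : iO n hn (y * ((u⁻¹ : (OO n hn)ˣ) : OO n hn)) = ((y * ((u⁻¹ : (OO n hn)ˣ) : OO n hn) : OO n hn) : RatFunc ℚ) := rfl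
  rw [h1, h2]
  ring

/-- the case `n ≡ -r (mod d)` -/
theorem caseA (n d w : ℕ) (hn : 2 ≤ n) (r ee : ℤ) (hr : r = 1 ∨ r = -1) (hd : Odd d) (hd5 : 5 ≤ d)
    (hee : 2 * ee = r + d) (hw : (w : ℤ) = ee * (d - 2) - r * (d - 1))
    (h : (d : ℤ) ∣ n + r) :
    ∃ A B : ℤ[X], ¬ cyclotomic n ℤ ∣ B ∧ Sgen d n w r = ev (cyclotomic n ℤ ^ 3 * A) / ev B := by
  obtain ⟨k0, hk0⟩ := hd
  obtain ⟨k, rfl⟩ : ∃ k, k0 = k + 2 := ⟨k0 - 2, by omega⟩
  have hdk : d = 2 * k + 5 := by omega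
  obtain ⟨m1, hm1⟩ := h
  have hd0 : (0 : ℤ) < d := by omega
  have hm1pos : 0 < m1 := by
    have : 0 < (d : ℤ) * m1 := by rw [← hm1]; omega
    exact (mul_pos_iff_of_pos_left hd0).1 this
  obtain ⟨m, hm⟩ : ∃ m : ℕ, m1 = m + 1 := ⟨(m1 - 1).toNat, by omega⟩
  subst hm
  -- n = d (m+1) - r
  have hnm : (n : ℤ) = d * (m + 1) - r := by linarith
  have hnm2 : (n : ℤ) = 2 * (k * m) + 5 * m + 2 * k + 5 - r := by
    rw [hnm]; push_cast [hdk]; ring
  have hcop : Nat.Coprime n d := by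
    rw [← Nat.isCoprime_iff_coprime]
    rcases hr with hr | hr
    · exact ⟨-1, m + 1, by rw [hnm, hr]; ring⟩
    · exact ⟨1, -(m + 1), by rw [hnm, hr]; ring⟩
  have hkm : (0 : ℤ) ≤ k * m := by positivity
  have hkm' : ((k * m : ℕ) : ℤ) = k * m := by push_cast; ring
  obtain ⟨N, hN⟩ : ∃ N : ℕ, N + m + 1 = n := ⟨n - m - 1, by omega⟩
  obtain ⟨M, hM⟩ : ∃ M : ℕ, 2 * M = m + n := by
    have : Even (m + n) := by
      rw [← Int.even_coe_nat]
      rcases hr with hr | hr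
      · exact ⟨k * m + 3 * m + k + 2, by push_cast; rw [hnm2, hr]; ring⟩
      · exact ⟨k * m + 3 * m + k + 3, by push_cast; rw [hnm2, hr]; ring⟩
    obtain ⟨M, hM⟩ := this
    exact ⟨M, by omega⟩
  refine fin n d w 3 hn r ee ⟨k + 2, by omega⟩ hd5 hcop hw ?_
  refine main3 (iO n hn) (iO_inj n hn) (qO n hn) ?_ (PhiO n hn) (two_unit n hn) d n k m N M r ee 1 (k + 3)
    (phi_dvd n hn) hr hdk hee (by rw [hnm]; ring) hN ?_ ?_ ?_
  · intro z hz
    rw [iO_q]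
    exact X_zpow_ne_one z hz
  · have hM' : 2 * (M : ℤ) = m + n := by exact_mod_cast hM
    have hdk' : (d : ℤ) = 2 * k + 5 := by exact_mod_cast hdk
    linear_combination (d : ℤ) * hM' - hnm - (n : ℤ) * hdk' * 0 + (n : ℤ) * hdk'
  · have h1 : (k + 1) * m = k * m + m := by ring
    rw [h1]
    omega
  · have hdk' : (d : ℤ) = 2 * k + 5 := by exact_mod_cast hdk
    rw [hdk']; ring

/-- the case `2 n ≡ -r (mod d)` -/
theorem caseB (n d w : ℕ) (hn : 2 ≤ n) (r ee : ℤ) (hr : r = 1 ∨ r = -1) (hd : Odd d) (hd5 : 5 ≤ d)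
    (hee : 2 * ee = r + d) (hw : (w : ℤ) = ee * (d - 2) - r * (d - 1))
    (h : (d : ℤ) ∣ 2 * n + r) :
    ∃ A B : ℤ[X], ¬ cyclotomic n ℤ ∣ B ∧ Sgen d n w r = ev (cyclotomic n ℤ ^ 4 * A) / ev B := by
  obtain ⟨k0, hk0⟩ := hd
  obtain ⟨k, rfl⟩ : ∃ k, k0 = k + 2 := ⟨k0 - 2, by omega⟩
  have hdk : d = 2 * k + 5 := by omega
  obtain ⟨m1, hm1⟩ := h
  have hd0 : (0 : ℤ) < d := by omega
  have hm1pos : 0 < m1 := by
    have : 0 < (d : ℤ) * m1 := by rw [← hm1]; omega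
    exact (mul_pos_iff_of_pos_left hd0).1 this
  obtain ⟨m, hm⟩ : ∃ m : ℕ, m1 = m + 1 := ⟨(m1 - 1).toNat, by omega⟩
  subst hm
  have hnm : 2 * (n : ℤ) = d * (m + 1) - r := by linarith
  have hnm2 : 2 * (n : ℤ) = 2 * (k * m) + 5 * m + 2 * k + 5 - r := by
    rw [hnm]; push_cast [hdk]; ring
  have hcop : Nat.Coprime n d := by
    rw [← Nat.isCoprime_iff_coprime]
    rcases hr with hr | hr
    · exact ⟨-2, m + 1, by rw [hr] at hnm; linear_combination -hnm⟩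
    · exact ⟨2, -(m + 1), by rw [hr] at hnm; linear_combination hnm⟩
  have hkm : (0 : ℤ) ≤ k * m := by positivity
  have hkm' : ((k * m : ℕ) : ℤ) = k * m := by push_cast; ring
  obtain ⟨N, hN⟩ : ∃ N : ℕ, N + m + 1 = n := ⟨n - m - 1, by omega⟩
  obtain ⟨M, hM⟩ : ∃ M : ℕ, 2 * M = m := ⟨m / 2, by omega⟩
  refine fin n d w 4 hn r ee ⟨k + 2, by omega⟩ hd5 hcop hw ?_
  have hM' : 2 * (M : ℤ) = m := by exact_mod_cast hM
  have hdk' : (d : ℤ) = 2 * k + 5 := by exact_mod_cast hdk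
  have hN' : (N : ℤ) + m + 1 = n := by exact_mod_cast hN
  have h6 : r + (d : ℤ) * N = ((d : ℤ) - 2) * n := by
    have : (N : ℤ) = n - (m + 1) := by linarith
    rw [this]; linear_combination hnm
  refine main4 (iO n hn) (iO_inj n hn) (qO n hn) ?_ (PhiO n hn) (two_unit n hn) d n k m N M r ee 2 1
    (phi_dvd n hn) hr hdk hee (by linarith) hN ?_ ?_ ?_ h6 ?_
  · intro z hz
    rw [iO_q]
    exact X_zpow_ne_one z hz
  · linear_combination (d : ℤ) * hM' - hnm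
  · have h1 : (k + 1) * m = k * m + m := by ring
    rw [h1]
    omega
  · rw [hdk']; ring
  · rcases Nat.even_or_odd N with hNe | hNo
    · exact Or.inl hNe
    · refine Or.inr ⟨hNo, ?_⟩
      have hne : Even n := by
        rw [← Nat.not_odd_iff_even]
        intro hno
        obtain ⟨a, ha⟩ := hNo
        obtain ⟨b, hb⟩ := hno
        have : (N : ℤ) = 2 * a + 1 := by exact_mod_cast ha
        have hb' : (n : ℤ) = 2 * b + 1 := by exact_mod_cast hb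
        rw [this, hb', hdk'] at h6
        rcases hr with hr | hr
        · rw [hr] at h6
          have : 2 * ((2 * (k : ℤ) + 5) * a + k + 3) = 2 * ((2 * (k : ℤ) + 3) * b + k + 1) + 1 := by
            linear_combination h6
          omega
        · rw [hr] at h6
          have : 2 * ((2 * (k : ℤ) + 5) * a + k + 2) = 2 * ((2 * (k : ℤ) + 3) * b + k + 1) + 1 := by
            linear_combination h6
          omega
      obtain ⟨n2, hn2⟩ := hne
      have hn2' : n = 2 * n2 := by omega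
      exact ⟨n2, hn2', phi_dvd2 n n2 hn hn2'⟩

end N719QC
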