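import Pool.Agent.N719.QC.KM

namespace N719QC

open Finset Polynomial

variable {R : Type*} [CommRing R]

theorem anti (p α e : Rˣ) (d n N : ℕ) (E : R[X])
    (hd : Odd d) (hd3 : 3 ≤ d) (hNn : N + 1 ≤ n) (hα : α * p ^ N = 1) (he : e ^ 2 = α * p)
    (hs : Even N ∨ (Odd N ∧ e * p ^ ((N - 1) / 2) = -1)) (h2 : IsUnit (2 : R)) :
    ∑ k ∈ range n, tm p α e d n E k = 0 := by
  -- large k
  have hbig : ∀ k ∈ Ico (N + 1) n, tm p α e d n E k = 0 := by
    intro k hk
    rw [mem_Ico] at hk
    unfold tm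
    have hz : ∏ j ∈ range k, (1 - ((α * p ^ j : Rˣ) : R)) * E.eval ((p ^ j : Rˣ) : R) = 0 := by
      refine prod_eq_zero (mem_range.2 (show N < k by omega)) ?_
      rw [hα, Units.val_one, sub_self, zero_mul]
    rw [hz]; ring
  have hsplit : ∑ k ∈ range n, tm p α e d n E k = ∑ k ∈ range (N + 1), tm p α e d n E k := by
    rw [range_eq_Ico, range_eq_Ico, ← sum_Ico_consecutive _ (Nat.zero_le (N + 1)) (by omega : N + 1 ≤ n),
      sum_eq_zero hbig, add_zero]
  rw [hsplit]
  set v : ℕ → Rˣ := fun k => e ^ ((d - 2) * k) * (-1) ^ k * (∏ j ∈ range k, α * p ^ j)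
    * ∏ j ∈ Ico k N, (α * p ^ (j + 1)) ^ (d - 1) with hv
  have hrec : ∀ j, j < N → v (j + 1) * (α * p ^ (j + 1)) ^ (d - 1) = v j * (-(e ^ (d - 2) * (α * p ^ j))) := by
    intro j hj
    simp only [hv]
    rw [prod_eq_prod_Ico_succ_bot hj, prod_range_succ, mul_add, mul_one, pow_add, pow_succ (-1 : Rˣ)]
    apply Units.ext
    push_cast
    ring
  have hαR : (α : R) * (p : R) ^ N = 1 := by
    have := congrArg Units.val hα
    simpa using this
  have heR : (e : R) ^ 2 = (α : R) * (p : R) := by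
    have := congrArg Units.val he
    simpa using this
  have hbase : v N = v 0 * (α * p ^ (2 * 0)) := by
    simp only [hv]
    rw [Ico_self, prod_empty, range_zero, prod_empty, mul_zero, mul_zero, pow_zero, pow_zero, pow_zero]
    -- T
    have hT : ∏ j ∈ Ico 0 N, (α * p ^ (j + 1)) ^ (d - 1) = ((p ^ (∑ i ∈ range N, i)) ^ (d - 1))⁻¹ := by
      rw [prod_pow, ← inv_pow]
      congr 1
      rw [← prod_pow_eq_pow_sum, ← prod_inv_distrib, ← range_eq_Ico, ← prod_range_reflect]
      refine prod_congr rfl fun j hj => ?_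
      have hj' := mem_range.1 hj
      rw [eq_inv_iff_mul_eq_one, mul_assoc, ← pow_add, ← hα]
      congr 2
      omega
    have hT2 : ∏ j ∈ range N, α * p ^ j = α * (p ^ (∑ i ∈ range N, i))⁻¹ := by
      have h1 : ∏ j ∈ range N, α * p ^ (j + 1) = (p ^ (∑ i ∈ range N, i))⁻¹ := by
        rw [← prod_pow_eq_pow_sum, ← prod_inv_distrib, ← prod_range_reflect]
        refine prod_congr rfl fun j hj => ?_
        have hj' := mem_range.1 hj
        rw [eq_inv_iff_mul_eq_one, mul_assoc, ← pow_add, ← hα]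
        congr 2
        omega
      rw [← h1]
      have h3 : ∏ j ∈ range N, α * p ^ (j + 1) = (∏ j ∈ range N, α * p ^ j) * p ^ N := by
        have : p ^ N = ∏ _j ∈ range N, p := by rw [prod_const, card_range]
        rw [this, ← prod_mul_distrib]
        refine prod_congr rfl fun j _ => ?_
        rw [pow_succ, mul_assoc]
      rw [h3, mul_comm α, mul_assoc, mul_comm (p ^ N), hα, mul_one]
    rw [hT, hT2]
    set S := ∑ i ∈ range N, i with hS
    have hS2 : S * 2 = N * (N - 1) := Finset.sum_range_id_mul_two N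
    -- key identity
    have hkey : e ^ ((d - 2) * N) * (-1) ^ N * (p ^ S) ^ (d - 2) = 1 := by
      rcases hs with ⟨h, hh⟩ | ⟨⟨h, hh⟩, hs⟩
      · have hN2 : N = 2 * h := by omega
        have hS3 : S = h * (N - 1) := by
          have : S * 2 = h * (N - 1) * 2 := by rw [hS2]; conv_lhs => rw [hN2]
                                               rw [hN2]; ring
          omega
        have e1 : e ^ ((d - 2) * N) = (α * p) ^ ((d - 2) * h) := by
          rw [← he, ← pow_mul]; congr 1; rw [hN2]; ring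
        have e2 : (-1 : Rˣ) ^ N = 1 := by rw [hN2, pow_mul]; simp
        rw [e1, e2, mul_one, mul_comm (d - 2) h, pow_mul, ← mul_pow, hS3, mul_comm h (N - 1), pow_mul p, ← mul_pow]
        rcases Nat.eq_zero_or_pos N with h0 | h0
        · have : h = 0 := by omega
          rw [this]; simp
        · have : α * p * p ^ (N - 1) = 1 := by
            rw [mul_assoc, ← pow_succ', ← hα]; congr 2; omega
          rw [this]; simp
      · have hS3 : S = h * N := by
          have : S * 2 = h * N * 2 := by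
            rw [hS2]; have : N - 1 = 2 * h := by omega
            rw [this]; ring
          omega
        have hh' : (N - 1) / 2 = h := by omega
        rw [hh'] at hs
        have e1 : (-1 : Rˣ) ^ N = (-1 : Rˣ) ^ ((d - 2) * N) := by
          have ho : Odd ((d - 2) * N) := by
            obtain ⟨c, hc⟩ := hd
            exact Odd.mul ⟨c - 1, by omega⟩ ⟨h, hh⟩
          rw [Odd.neg_one_pow ho, Odd.neg_one_pow ⟨h, hh⟩]
        rw [e1, hS3, ← pow_mul, ← mul_pow]
        have e2 : p ^ (h * N * (d - 2)) = (p ^ h) ^ ((d - 2) * N) := by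
          rw [← pow_mul]; congr 1; ring
        rw [e2, ← mul_pow]
        have e3 : e * -1 * p ^ h = 1 := by
          rw [mul_neg, mul_one, neg_mul, hs, neg_neg]
        rw [e3, one_pow]
    have hd1 : d - 1 = (d - 2) + 1 := by omega
    rw [hd1, pow_succ (p ^ S) (d - 2)]
    have hk2 : e ^ ((d - 2) * N) * (-1) ^ N = ((p ^ S) ^ (d - 2))⁻¹ := eq_inv_of_mul_eq_one_left hkey
    rw [hk2, mul_inv]
    generalize ((p ^ S) ^ (d - 2))⁻¹ = x1
    generalize (p ^ S)⁻¹ = x2
    simp only [one_mul, mul_one]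
    rw [mul_comm α x2, mul_assoc]
  have hvk : ∀ k, k ≤ N → v (N - k) = v k * (α * p ^ (2 * k)) := by
    intro k
    induction k with
    | zero => intro _; rw [Nat.sub_zero]; exact hbase
    | succ k ih =>
      intro hk
      have ih' := ih (by omega)
      have r1 := hrec k (by omega)
      have r2 := hrec (N - (k + 1)) (by omega)
      have e1 : N - (k + 1) + 1 = N - k := by omega
      rw [e1, ih'] at r2
      -- r1 : v (k+1) * (α p^(k+1))^(d-1) = v k * -(e^(d-2) α p^k)
      -- r2 : v k * (α p^(2k)) * (α p^(N-k))^(d-1) = v (N-(k+1)) * -(e^(d-2) α p^(N-(k+1)))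
      have hu : IsUnit ((((α * p ^ (k + 1)) ^ (d - 1) * (e ^ (d - 2) * (α * p ^ (N - (k + 1)))) : Rˣ)) : R) :=
        Units.isUnit _
      apply Units.ext
      apply hu.mul_left_injective
      have r1R := congrArg Units.val r1
      have r2R := congrArg Units.val r2
      push_cast at r1R r2R ⊢
      have hd1 : d - 1 = (d - 2) + 1 := by omega
      have q1 : (p : R) ^ (k + 1) * (p : R) ^ (N - k) = (p : R) ^ N * p := by
        rw [← pow_add, ← pow_succ]; congr 1; omega
      have q2 : (p : R) ^ (N - (k + 1)) * (p : R) ^ (k + 1) = (p : R) ^ N := by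
        rw [← pow_add]; congr 1; omega
      have q3 : ((α : R) * p ^ (k + 1)) ^ (d - 1) * ((α : R) * p ^ (N - k)) ^ (d - 1) = (α * p) ^ (d - 1) := by
        rw [← mul_pow]; congr 1
        calc (α : R) * p ^ (k + 1) * (α * p ^ (N - k)) = α * α * (p ^ (k + 1) * p ^ (N - k)) := by ring
          _ = (α * p ^ N) * (α * p) := by rw [q1]; ring
          _ = α * p := by rw [hαR, one_mul]
      have q4 : ((e : R) ^ (d - 2)) * (e : R) ^ (d - 2) = (α * p) ^ (d - 2) := by
        rw [← mul_pow, ← sq, heR]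
      have q5 : (α : R) * p ^ k * (α * p ^ (N - (k + 1))) * p = α := by
        calc (α : R) * p ^ k * (α * p ^ (N - (k + 1))) * p = α * (α * (p ^ (N - (k + 1)) * p ^ (k + 1))) := by ring
          _ = α := by rw [q2, hαR, mul_one]
      calc (v (N - (k + 1)) : R) * (((α : R) * p ^ (k + 1)) ^ (d - 1) * (e ^ (d - 2) * (α * p ^ (N - (k + 1)))))
          = - (((v (N - (k + 1)) : R) * -(e ^ (d - 2) * (α * p ^ (N - (k + 1))))) * ((α : R) * p ^ (k + 1)) ^ (d - 1)) := by ring
        _ = - ((v k : R) * (α * p ^ (2 * k)) * (((α : R) * p ^ (k + 1)) ^ (d - 1) * ((α : R) * p ^ (N - k)) ^ (d - 1))) := by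
            rw [← r2R]; ring
        _ = - ((v k : R) * (α * p ^ (2 * k)) * (α * p) ^ (d - 1)) := by rw [q3]
        _ = - ((v k : R) * p ^ (2 * k) * p * (α * p) ^ (d - 2) * α * α) := by rw [hd1, pow_succ]; ring
        _ = - ((v k : R) * p ^ (2 * k) * p * (e ^ (d - 2) * e ^ (d - 2)) * ((α : R) * p ^ k * (α * p ^ (N - (k + 1))) * p) * α) := by
            rw [q4, q5]
        _ = ((v k : R) * -(e ^ (d - 2) * (α * p ^ k))) * (p ^ (2 * k) * p * e ^ (d - 2) * (α * p ^ (N - (k + 1))) * p * α) := by ring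
        _ = ((v (k + 1) : R) * ((α : R) * p ^ (k + 1)) ^ (d - 1)) * (p ^ (2 * k) * p * e ^ (d - 2) * (α * p ^ (N - (k + 1))) * p * α) := by
            rw [r1R]
        _ = (v (k + 1) : R) * (α * p ^ (2 * (k + 1))) * (((α : R) * p ^ (k + 1)) ^ (d - 1) * (e ^ (d - 2) * (α * p ^ (N - (k + 1))))) := by
            ring
  -- decomposition of the terms
  set Cst : R := ∏ j ∈ Ico N (n - 1), ((1 - ((p ^ (j + 1) : Rˣ) : R)) *
      (((α * p ^ (j + 1) : Rˣ) : R) ^ (d - 1) * E.eval (((α * p ^ (j + 1))⁻¹ : Rˣ) : R))) with hCst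
  set Sy : ℕ → R := fun k => (∏ j ∈ range k, (1 - (p : R) ^ (N - j))) * (∏ j ∈ Ico k N, (1 - (p : R) ^ (j + 1)))
    * (∏ j ∈ range k, E.eval ((p : R) ^ j)) * (∏ j ∈ Ico k N, E.eval ((p : R) ^ (N - 1 - j))) with hSy
  have hdec : ∀ k, k ≤ N → tm p α e d n E k = Cst * ((1 - (α : R) * p ^ (2 * k)) * (v k : R)) * Sy k := by
    intro k hk
    unfold tm
    rw [← prod_Ico_consecutive _ hk (by omega : N ≤ n - 1)]
    have h1 : ∏ j ∈ range k, (1 - ((α * p ^ j : Rˣ) : R)) * E.eval ((p ^ j : Rˣ) : R)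
        = (-1) ^ k * (∏ j ∈ range k, ((α : R) * p ^ j)) * (∏ j ∈ range k, (1 - (p : R) ^ (N - j)))
          * ∏ j ∈ range k, E.eval ((p : R) ^ j) := by
      have : ((-1 : R)) ^ k = ∏ _j ∈ range k, (-1 : R) := by rw [prod_const, card_range]
      rw [this, ← prod_mul_distrib, ← prod_mul_distrib, ← prod_mul_distrib]
      refine prod_congr rfl fun j hj => ?_
      have hj' := mem_range.1 hj
      have q : (α : R) * p ^ j * p ^ (N - j) = 1 := by
        rw [mul_assoc, ← pow_add, ← hαR]; congr 2; omega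
      push_cast
      linear_combination (-(E.eval ((p : R) ^ j))) * q
    have h2 : ∏ j ∈ Ico k N, (1 - ((p ^ (j + 1) : Rˣ) : R)) *
      (((α * p ^ (j + 1) : Rˣ) : R) ^ (d - 1) * E.eval (((α * p ^ (j + 1))⁻¹ : Rˣ) : R))
        = (∏ j ∈ Ico k N, (((α * p ^ (j + 1)) ^ (d - 1) : Rˣ) : R)) * (∏ j ∈ Ico k N, (1 - (p : R) ^ (j + 1)))
          * ∏ j ∈ Ico k N, E.eval ((p : R) ^ (N - 1 - j)) := by
      rw [← prod_mul_distrib, ← prod_mul_distrib]
      refine prod_congr rfl fun j hj => ?_
      have hj' := mem_Ico.1 hj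
      have q : ((α * p ^ (j + 1))⁻¹ : Rˣ) = p ^ (N - 1 - j) := by
        rw [inv_eq_iff_mul_eq_one, mul_assoc, ← pow_add, ← hα]; congr 2; omega
      rw [q]
      push_cast
      ring
    rw [h1, h2, ← hCst]
    generalize Cst = cc
    simp only [hSy, hv]
    push_cast
    ring
  have hsym : ∀ k, k ≤ N → Sy (N - k) = Sy k := by
    intro k hk
    simp only [hSy]
    have a1 : ∏ j ∈ range (N - k), (1 - (p : R) ^ (N - j)) = ∏ j ∈ Ico k N, (1 - (p : R) ^ (j + 1)) := by
      rw [← prod_range_reflect, prod_Ico_eq_prod_range]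
      refine prod_congr rfl fun j hj => ?_
      have hj' := mem_range.1 hj
      congr 2; omega
    have a2 : ∏ j ∈ Ico (N - k) N, (1 - (p : R) ^ (j + 1)) = ∏ j ∈ range k, (1 - (p : R) ^ (N - j)) := by
      rw [prod_Ico_eq_prod_range]
      have : N - (N - k) = k := by omega
      rw [this, ← prod_range_reflect]
      refine prod_congr rfl fun j hj => ?_
      have hj' := mem_range.1 hj
      congr 2; omega
    have a3 : ∏ j ∈ range (N - k), E.eval ((p : R) ^ j) = ∏ j ∈ Ico k N, E.eval ((p : R) ^ (N - 1 - j)) := by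
      rw [← prod_range_reflect, prod_Ico_eq_prod_range]
      refine prod_congr rfl fun j hj => ?_
      have hj' := mem_range.1 hj
      congr 2; omega
    have a4 : ∏ j ∈ Ico (N - k) N, E.eval ((p : R) ^ (N - 1 - j)) = ∏ j ∈ range k, E.eval ((p : R) ^ j) := by
      rw [prod_Ico_eq_prod_range]
      have : N - (N - k) = k := by omega
      rw [this, ← prod_range_reflect]
      refine prod_congr rfl fun j hj => ?_
      have hj' := mem_range.1 hj
      congr 2; omega
    rw [a1, a2, a3, a4]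
    ring
  have hanti : ∀ k, k ≤ N → tm p α e d n E (N - k) = - tm p α e d n E k := by
    intro k hk
    rw [hdec k hk, hdec (N - k) (by omega), hsym k hk, hvk k hk]
    have q : (p : R) ^ (2 * (N - k)) * (p : R) ^ (2 * k) = (p : R) ^ N * (p : R) ^ N := by
      rw [← pow_add, ← pow_add]; congr 1; omega
    have q2 : (α : R) * p ^ (2 * (N - k)) * (α * p ^ (2 * k)) = 1 := by
      calc (α : R) * p ^ (2 * (N - k)) * (α * p ^ (2 * k)) = α * α * (p ^ (2 * (N - k)) * p ^ (2 * k)) := by ring
        _ = (α * p ^ N) * (α * p ^ N) := by rw [q]; ring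
        _ = 1 := by rw [hαR, one_mul]
    push_cast
    linear_combination (-(Cst * (v k : R) * Sy k)) * q2
  have h3 : ∑ k ∈ range (N + 1), tm p α e d n E k = - ∑ k ∈ range (N + 1), tm p α e d n E k := by
    conv_lhs => rw [← sum_range_reflect]
    rw [← sum_neg_distrib]
    refine sum_congr rfl fun k hk => ?_
    have hk' := mem_range.1 hk
    have : N + 1 - 1 - k = N - k := by omega
    rw [this]
    exact hanti k (by omega)
  have h4 : (2 : R) * ∑ k ∈ range (N + 1), tm p α e d n E k = 0 := by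
    linear_combination h3
  exact (IsUnit.mul_right_eq_zero h2).1 h4

end N719QC
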