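import Pool.Agent.N719.QC.KM

namespace N719QC

open Finset Polynomial

variable {B : Type*} [CommRing B]

theorem choose_two_cast (k : ℕ) : 2 * ((k.choose 2 : ℕ) : B) = k * (k - 1) := by
  induction k with
  | zero => simp
  | succ k ih =>
    rw [Nat.choose_succ_succ' k 1, Nat.choose_one_right]
    push_cast
    linear_combination ih

/-- expansion of the product modulo cubes -/
theorem expand (φ τ' κ' τ κ w x : B) (hφ : φ ^ 3 = 0) (hτ : τ = φ * τ') (hκ : κ = φ ^ 2 * κ') (k : ℕ) :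
    (w - τ * x) ^ k * (w ^ 2 - (τ + κ) * w * x - κ * x ^ 2)
      = w ^ k * (w ^ 2 - (κ + (k + 1) * τ) * w * x + (-κ + k * τ * (τ + κ) + (k.choose 2 : ℕ) * τ ^ 2) * x ^ 2) := by
  induction k with
  | zero => simp; ring
  | succ k ih =>
    rw [pow_succ, mul_right_comm, ih, Nat.choose_succ_succ' k 1, Nat.choose_one_right]
    push_cast
    have h1 : τ ^ 3 = 0 := by rw [hτ, mul_pow, hφ, zero_mul]
    have h2 : τ * κ = 0 := by rw [hτ, hκ]; linear_combination (τ' * κ') * hφ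
    have e : ∀ c : B, τ * (-κ + k * τ * (τ + κ) + c * τ ^ 2) = 0 := by
      intro c
      linear_combination (-1 + (k : B) * τ) * h2 + ((k : B) + c) * h1
    linear_combination (-(w ^ k * x ^ 3)) * e ((k.choose 2 : ℕ) : B) 

/-- quadratic logarithm -/
theorem flog (φ η : B) (hφ : φ ^ 3 = 0) (Q : Bˣ) (hQ : (Q : B) - 1 = φ * η) (m : ℤ) :
    ∃ c : B, ((Q ^ m : Bˣ) : B) - 1 = φ * c ∧
      2 * (((Q ^ m : Bˣ) : B) - 1) - (((Q ^ m : Bˣ) : B) - 1) ^ 2
        = m * (2 * ((Q : B) - 1) - ((Q : B) - 1) ^ 2) := by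
  have hadd : ∀ (u v : B) (c c' : B), u - 1 = φ * c → v - 1 = φ * c' →
      (u * v - 1 = φ * (c + c' + φ * c * c')) ∧
      2 * (u * v - 1) - (u * v - 1) ^ 2 = (2 * (u - 1) - (u - 1) ^ 2) + (2 * (v - 1) - (v - 1) ^ 2) := by
    intro u v c c' hu hv
    have hu' : u = 1 + φ * c := by linear_combination hu
    have hv' : v = 1 + φ * c' := by linear_combination hv
    subst hu'; subst hv'
    refine ⟨by ring, ?_⟩
    linear_combination (-(2 * c * c' * (c + c') + φ * c ^ 2 * c' ^ 2)) * hφ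
  induction m using Int.induction_on with
  | zero => exact ⟨0, by simp, by simp⟩
  | succ i ih =>
    obtain ⟨c, hc, hc2⟩ := ih
    have h := hadd _ _ c η hc hQ
    refine ⟨_, by rw [zpow_add_one, Units.val_mul]; exact h.1, ?_⟩
    rw [zpow_add_one, Units.val_mul, h.2, hc2]
    push_cast
    ring
  | pred i ih =>
    obtain ⟨c, hc, hc2⟩ := ih
    -- inverse of Q
    have hinv : ((Q⁻¹ : Bˣ) : B) - 1 = φ * (-(((Q⁻¹ : Bˣ) : B)) * η) := by
      have h1 : ((Q⁻¹ : Bˣ) : B) * (Q : B) = 1 := by rw [← Units.val_mul]; simp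
      linear_combination (-((Q⁻¹ : Bˣ) : B)) * hQ + h1
    have h0 := hadd _ _ _ _ hinv hQ
    have h1 : ((Q⁻¹ : Bˣ) : B) * (Q : B) = 1 := by rw [← Units.val_mul]; simp
    rw [h1] at h0
    have h := hadd _ _ c _ hc hinv
    refine ⟨_, by rw [zpow_sub_one, Units.val_mul]; exact h.1, ?_⟩
    rw [zpow_sub_one, Units.val_mul, h.2, hc2]
    have h2 := h0.2
    push_cast
    linear_combination -h2

/-- the perturbed product agrees with the unperturbed one modulo cubes -/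
theorem cong (φ η : B) (hφ : φ ^ 3 = 0) (h2 : IsUnit (2 : B)) (Q : Bˣ) (hQ : (Q : B) - 1 = φ * η)
    (k : ℕ) (u c t : ℤ) (huct : u + c + (k + 1) * t = 0) (κ x : B)
    (hκ : κ = -((((Q ^ u : Bˣ) : B) - 1) + (((Q ^ c : Bˣ) : B) - 1) + (k + 1) * (((Q ^ t : Bˣ) : B) - 1))) :
    (1 - ((Q ^ u : Bˣ) : B) * x) * (1 - ((Q ^ c : Bˣ) : B) * x)
      * ((1 - (1 + ((Q ^ t : Bˣ) : B)) * x + ((Q ^ t : Bˣ) : B) * x ^ 2) ^ k
        * (1 - (1 + ((Q ^ t : Bˣ) : B) + κ) * x + ((Q ^ t : Bˣ) : B) * x ^ 2))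
      = (1 - x) ^ (2 * k + 4) := by
  obtain ⟨a', ha, ha2⟩ := flog φ η hφ Q hQ u
  obtain ⟨b', hb, hb2⟩ := flog φ η hφ Q hQ c
  obtain ⟨τ', hτ, hτ2⟩ := flog φ η hφ Q hQ t
  set a : B := ((Q ^ u : Bˣ) : B) - 1 with hadef
  set b : B := ((Q ^ c : Bˣ) : B) - 1 with hbdef
  set τ : B := ((Q ^ t : Bˣ) : B) - 1 with hτdef
  have e1 : ((Q ^ u : Bˣ) : B) = 1 + a := by rw [hadef]; ring
  have e2 : ((Q ^ c : Bˣ) : B) = 1 + b := by rw [hbdef]; ring
  have e3 : ((Q ^ t : Bˣ) : B) = 1 + τ := by rw [hτdef]; ring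
  rw [e1, e2, e3]
  have huct' : ((u : B)) + c + (k + 1) * t = 0 := by
    have := congrArg (Int.cast : ℤ → B) huct
    push_cast at this
    exact this
  have H2 : (2 * a - a ^ 2) + (2 * b - b ^ 2) + (k + 1) * (2 * τ - τ ^ 2) = 0 := by
    rw [ha2, hb2, hτ2]
    linear_combination (2 * ((Q : B) - 1) - ((Q : B) - 1) ^ 2) * huct'
  -- κ is in φ^2
  obtain ⟨two, htwo⟩ := h2
  have hi : ((two⁻¹ : Bˣ) : B) * 2 = 1 := by rw [← htwo, ← Units.val_mul]; simp
  have hκ2 : κ = φ ^ 2 * (-(((two⁻¹ : Bˣ) : B)) * (a' ^ 2 + b' ^ 2 + (k + 1) * τ' ^ 2)) := by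
    have h1 : 2 * κ = -(a ^ 2 + b ^ 2 + (k + 1) * τ ^ 2) := by
      rw [hκ]; linear_combination -H2
    have h3 : κ = ((two⁻¹ : Bˣ) : B) * (2 * κ) := by linear_combination (-κ) * hi
    rw [h3, h1, ha, hb, hτ]; ring
  set κ' : B := (-(((two⁻¹ : Bˣ) : B)) * (a' ^ 2 + b' ^ 2 + (k + 1) * τ' ^ 2)) with hκ'
  have hex := expand φ τ' κ' τ κ (1 - x) x hφ hτ hκ2 k
  have hf : (1 - (1 + (1 + τ)) * x + (1 + τ) * x ^ 2) ^ k = (1 - x) ^ k * ((1 - x) - τ * x) ^ k := by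
    rw [← mul_pow]; congr 1; ring
  have hs : (1 - (1 + (1 + τ) + κ) * x + (1 + τ) * x ^ 2)
      = ((1 - x) ^ 2 - (τ + κ) * (1 - x) * x - κ * x ^ 2) := by ring
  rw [hf, hs, mul_assoc ((1 - x) ^ k), hex]
  set CH : B := ((k.choose 2 : ℕ) : B) with hCH
  have hch : 2 * CH = k * (k - 1) := choose_two_cast k
  -- relations
  have r1 : a * κ = 0 := by rw [ha, hκ2]; linear_combination (a' * κ') * hφ
  have r2 : b * κ = 0 := by rw [hb, hκ2]; linear_combination (b' * κ') * hφ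
  have r3 : τ * κ = 0 := by rw [hτ, hκ2]; linear_combination (τ' * κ') * hφ
  have r4 : b * τ ^ 2 = 0 := by rw [hb, hτ]; linear_combination (b' * τ' ^ 2) * hφ
  have r5 : a * τ ^ 2 = 0 := by rw [ha, hτ]; linear_combination (a' * τ' ^ 2) * hφ
  have r6 : a * b * τ = 0 := by rw [ha, hb, hτ]; linear_combination (a' * b' * τ') * hφ
  have hH1 : κ + (k + 1) * τ = -(a + b) := by rw [hκ]; ring
  set A : B := κ + (k + 1) * τ with hA
  set BB : B := -κ + k * τ * (τ + κ) + CH * τ ^ 2 with hBB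
  have s1 : b * BB = 0 := by
    rw [hBB]; linear_combination (-1 + (k : B) * τ) * r2 + ((k : B) + CH) * r4
  have s2 : a * BB = 0 := by
    rw [hBB]; linear_combination (-1 + (k : B) * τ) * r1 + ((k : B) + CH) * r5
  have s3 : a * b * A = 0 := by
    rw [hA]; linear_combination b * r1 + ((k : B) + 1) * r6
  have s4 : BB + b * A + a * (A + b) = 0 := by
    have h3 : 2 * (BB + b * A + a * (A + b)) = 0 := by
      have h1 : 2 * κ = -(a ^ 2 + b ^ 2 + (k + 1) * τ ^ 2) := by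
        rw [hκ]; linear_combination -H2
      have hA' : A = -(a + b) := hH1
      rw [hA', hBB]
      have h4 : ((k : B) + 1) * τ + (a + b) = -κ := by rw [hκ]; ring
      have h5 : κ * (((k : B) + 1) * τ - (a + b)) = 0 := by
        linear_combination ((k : B) + 1) * r3 - r1 - r2
      linear_combination -h1 + τ ^ 2 * hch + 2 * (k : B) * r3
        + (((k : B) + 1) * τ - (a + b)) * h4 - h5
    have h4 : (BB + b * A + a * (A + b)) = ((two⁻¹ : Bˣ) : B) * (2 * (BB + b * A + a * (A + b))) := by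
      linear_combination (-(BB + b * A + a * (A + b))) * hi
    rw [h4, h3, mul_zero]
  have hfin : ((1 - x) - a * x) * ((1 - x) - b * x) * ((1 - x) ^ 2 - A * (1 - x) * x + BB * x ^ 2)
      = (1 - x) ^ 4 := by
    have hA0 : A + a + b = 0 := by rw [hH1]; ring
    linear_combination (-((1 - x) ^ 3 * x)) * hA0 + ((1 - x) ^ 2 * x ^ 2) * s4
      - ((1 - x) * x ^ 3) * s1 - ((1 - x) * x ^ 3) * s2 - ((1 - x) * x ^ 3) * s3 + (b * x ^ 4) * s2
  have : (1 - x) ^ (2 * k + 4) = (1 - x) ^ k * (1 - x) ^ k * (1 - x) ^ 4 := by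
    rw [← pow_add, ← pow_add]; congr 1; ring
  rw [this, ← hfin]
  ring

end N719QC
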