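import Mathlib

/-! # Division-free terms of a very-well-poised sum, and a Karlsson-Minton type zero -/

namespace N719QC

open Finset Polynomial

section Def
variable {A : Type*} [CommRing A]

/-- Division-free `k`-th term of the very-well-poised sum. -/
noncomputable def tm (p α e : Aˣ) (d n : ℕ) (E : A[X]) (k : ℕ) : A :=
  (1 - ((α * p ^ (2 * k) : Aˣ) : A)) * ((e ^ ((d - 2) * k) : Aˣ) : A)
   * (∏ j ∈ range k, (1 - ((α * p ^ j : Aˣ) : A)) * E.eval ((p ^ j : Aˣ) : A))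
   * ∏ j ∈ Ico k (n - 1), (1 - ((p ^ (j + 1) : Aˣ) : A)) *
      (((α * p ^ (j + 1) : Aˣ) : A) ^ (d - 1) * E.eval (((α * p ^ (j + 1))⁻¹ : Aˣ) : A))

theorem map_tm {B : Type*} [CommRing B] (φ : A →+* B) (p α e : Aˣ) (d n : ℕ) (E : A[X]) (k : ℕ) :
    φ (tm p α e d n E k) = tm (Units.map (φ : A →* B) p) (Units.map (φ : A →* B) α)
      (Units.map (φ : A →* B) e) d n (E.map φ) k := by
  unfold tm
  rw [map_mul, map_mul, map_mul, map_prod, map_prod]
  have h1 : ∀ u : Aˣ, φ (E.eval (u : A)) = (E.map φ).eval (φ (u : A)) := by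
    intro u
    rw [eval_map, eval₂_at_apply]
  have h2 : ∀ u : Aˣ, φ (u : A) = ((Units.map (φ : A →* B) u : Bˣ) : B) := fun u => rfl
  congr 1
  · congr 1
    · congr 1
      · rw [map_sub, map_one, h2]
        simp
      · rw [h2]; simp
    · refine prod_congr rfl fun j _ => ?_
      rw [map_mul, map_sub, map_one, h1, h2, h2]
      simp
  · refine prod_congr rfl fun j _ => ?_
    rw [map_mul, map_mul, map_sub, map_one, map_pow, h1, h2, h2, h2]
    simp

end Def

section Prods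
variable {K : Type*} [CommRing K]

theorem prodA (F : ℕ → K) (k N n : ℕ) (hk : k ≤ N) (hN : N + 1 ≤ n) :
    (∏ j ∈ range k, F j) * (F (k + k) * ∏ j ∈ (range (N + 1)).erase k, F (k + j))
      * ∏ j ∈ Ico k (n - 1), F (j + (N + 1)) = ∏ i ∈ range (N + n), F i := by
  rw [mul_prod_erase (range (N + 1)) (fun j => F (k + j)) (mem_range.2 (by omega))]
  have h1 : ∏ j ∈ range (N + 1), F (k + j) = ∏ i ∈ Ico k (k + (N + 1)), F i := by
    rw [prod_Ico_eq_prod_range, Nat.add_sub_cancel_left]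
  rw [h1, prod_Ico_add' F k (n - 1) (N + 1), range_eq_Ico, range_eq_Ico,
    prod_Ico_consecutive F (by omega) (by omega), prod_Ico_consecutive F (by omega) (by omega)]
  congr 2
  omega

theorem prodB (W : ℤ → K) (k N n : ℕ) (hk : k ≤ N) (hN : N + 1 ≤ n) :
    (∏ j ∈ (range (N + 1)).erase k, W ((k : ℤ) - j)) * (∏ j ∈ Ico k (n - 1), W ((j : ℤ) + 1))
      * ∏ j ∈ range k, W ((j : ℤ) - N)
      = (∏ i ∈ range (n - 1), W ((i : ℤ) + 1)) * ∏ i ∈ range N, W (-((i : ℤ) + 1)) := by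
  have e1 : (range (N + 1)).erase k = range k ∪ Ico (k + 1) (N + 1) := by
    ext x; simp only [mem_erase, mem_range, mem_union, mem_Ico]; omega
  have e2 : Disjoint (range k) (Ico (k + 1) (N + 1)) := by
    rw [disjoint_left]; intro x; simp only [mem_range, mem_Ico]; omega
  rw [e1, prod_union e2]
  have h1 : ∏ j ∈ range k, W ((k : ℤ) - j) = ∏ i ∈ range k, W ((i : ℤ) + 1) := by
    rw [← prod_range_reflect]
    refine prod_congr rfl fun j hj => ?_
    have := mem_range.1 hj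
    congr 1
    omega
  have h2 : ∏ j ∈ Ico (k + 1) (N + 1), W ((k : ℤ) - j) = ∏ i ∈ range (N - k), W (-((i : ℤ) + 1)) := by
    rw [prod_Ico_eq_prod_range]
    have : N + 1 - (k + 1) = N - k := by omega
    rw [this]
    refine prod_congr rfl fun j hj => ?_
    congr 1
    push_cast
    ring
  have h3 : ∏ j ∈ range k, W ((j : ℤ) - N) = ∏ i ∈ Ico (N - k) N, W (-((i : ℤ) + 1)) := by
    rw [← prod_range_reflect, prod_Ico_eq_prod_range]
    have : N - (N - k) = k := by omega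
    rw [this]
    refine prod_congr rfl fun j hj => ?_
    have := mem_range.1 hj
    congr 1
    omega
  have h4 : (∏ i ∈ range (n - 1), W ((i : ℤ) + 1))
      = (∏ i ∈ range k, W ((i : ℤ) + 1)) * ∏ j ∈ Ico k (n - 1), W ((j : ℤ) + 1) := by
    rw [range_eq_Ico, range_eq_Ico, prod_Ico_consecutive _ (by omega) (by omega)]
  have h5 : (∏ i ∈ range N, W (-((i : ℤ) + 1)))
      = (∏ i ∈ range (N - k), W (-((i : ℤ) + 1))) * ∏ i ∈ Ico (N - k) N, W (-((i : ℤ) + 1)) := by
    rw [range_eq_Ico, range_eq_Ico, prod_Ico_consecutive _ (by omega) (by omega)]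
  rw [h1, h2, h3, h4, h5]
  ring

theorem prodD (ε : ℕ → K) (k M n : ℕ) (h : k ≤ n - 1) :
    (∏ j ∈ range k, ε (j + M)) * (∏ j ∈ Ico k (n - 1), ε j) * ∏ j ∈ Ico (n - 1) M, ε j
      = (∏ j ∈ Ico M (n - 1), ε j) * ∏ j ∈ Ico k (k + M), ε j := by
  have h1 : ∏ j ∈ range k, ε (j + M) = ∏ j ∈ Ico M (k + M), ε j := by
    rw [range_eq_Ico, prod_Ico_add' ε 0 k M, zero_add]
  rw [h1]
  rcases le_or_gt M (n - 1) with hM | hM
  · rw [Ico_eq_empty_of_le hM, prod_empty, mul_one]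
    rcases le_or_gt (k + M) (n - 1) with hk | hk
    · rw [← prod_Ico_consecutive ε (show k ≤ k + M by omega) hk,
        ← prod_Ico_consecutive ε (show M ≤ k + M by omega) hk]
      ring
    · rw [← prod_Ico_consecutive ε h hk.le, ← prod_Ico_consecutive ε hM hk.le]
      ring
  · rw [Ico_eq_empty_of_le hM.le, prod_empty, one_mul]
    rw [← prod_Ico_consecutive ε (show k ≤ M by omega) (show M ≤ k + M by omega),
      ← prod_Ico_consecutive ε h hM.le]
    ring

theorem prod_pair (F : ℕ → K) (h : ℕ) :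
    ∏ l ∈ range (2 * h), F l = ∏ l ∈ range h, (F l * F (2 * h - 1 - l)) := by
  rw [two_mul, prod_range_add, prod_mul_distrib]
  congr 1
  rw [← prod_range_reflect]
  refine prod_congr rfl fun j hj => ?_
  have := mem_range.1 hj
  congr 1
  omega

theorem prod_pair_odd (F : ℕ → K) (h : ℕ) :
    ∏ l ∈ range (2 * h + 1), F l = (∏ l ∈ range h, (F l * F (2 * h - l))) * F h := by
  have : 2 * h + 1 = h + (h + 1) := by ring
  rw [this, prod_range_add, prod_mul_distrib, prod_range_succ', mul_assoc]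
  congr 1
  rw [Nat.add_zero]
  congr 1
  rw [← prod_range_reflect]
  refine prod_congr rfl fun j hj => ?_
  have := mem_range.1 hj
  congr 1
  omega

end Prods


section Pal
variable {K : Type*} [Field K]

/-- pairing for a quadratic factor -/
theorem pairF (P : ℤ → K) (hadd : ∀ a b, P (a + b) = P a * P b) (h0 : P 0 = 1)
    (α s : K) (m : ℕ) :
    ∃ f : K[X], f.natDegree ≤ m ∧ ∀ k : ℕ,
      ∏ l ∈ range m, (1 - s * P ((l : ℤ) - m) * P k + α * P (2 * l + 1 - m) * P k ^ 2)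
        = P k ^ m * f.eval ((P k)⁻¹ + α * P k) := by
  have hne : ∀ z, P z ≠ 0 := by
    intro z hz
    have := hadd z (-z)
    rw [add_neg_cancel, h0, hz, zero_mul] at this
    exact one_ne_zero this
  have hneg : ∀ z, P (-z) = (P z)⁻¹ := by
    intro z
    have := hadd z (-z)
    rw [add_neg_cancel, h0] at this
    exact eq_inv_of_mul_eq_one_right this.symm
  have key : ∀ (x u v : K), x ≠ 0 → u ≠ 0 → v ≠ 0 →
      (1 - s * u * x + α * (u * v⁻¹) * x ^ 2) * (1 - s * v * x + α * (v * u⁻¹) * x ^ 2)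
       = x ^ 2 * (1 * (x⁻¹ + α * x) ^ 2 + (-(s * (u + v))) * (x⁻¹ + α * x)
          + (α * (u * v⁻¹) + α * (v * u⁻¹) + s ^ 2 * u * v - 2 * α)) := by
    intro x u v hx hu hv
    field_simp
    ring
  have hF : ∀ (k l M : ℕ) (hl : l < M),
      (1 - s * P ((l : ℤ) - M) * P k + α * P (2 * l + 1 - M) * P k ^ 2) *
      (1 - s * P (((M - 1 - l : ℕ) : ℤ) - M) * P k + α * P (2 * ((M - 1 - l : ℕ) : ℤ) + 1 - M) * P k ^ 2)
      = P k ^ 2 * (C 1 * X ^ 2 + C (-(s * (P ((l : ℤ) - M) + P (-1 - l)))) * X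
        + C (α * (P ((l : ℤ) - M) * (P (-1 - l))⁻¹) + α * (P (-1 - l) * (P ((l : ℤ) - M))⁻¹)
          + s ^ 2 * P ((l : ℤ) - M) * P (-1 - l) - 2 * α)).eval ((P k)⁻¹ + α * P k) := by
    intro k l M hl
    have hc : ((M - 1 - l : ℕ) : ℤ) = M - 1 - l := by omega
    have e1 : ((M : ℤ) - 1 - l) - M = -1 - l := by ring
    have e2 : P (2 * l + 1 - M) = P ((l : ℤ) - M) * (P (-1 - l))⁻¹ := by
      rw [← hneg, ← hadd]; congr 1; ring
    have e3 : P (2 * ((M : ℤ) - 1 - l) + 1 - M) = P (-1 - l) * (P ((l : ℤ) - M))⁻¹ := by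
      rw [← hneg, ← hadd]; congr 1; ring
    rw [hc, e1, e2, e3, key _ _ _ (hne _) (hne _) (hne _)]
    simp only [eval_add, eval_mul, eval_C, eval_pow, eval_X]
  rcases Nat.even_or_odd' m with ⟨h, hm | hm⟩
  · subst hm
    refine ⟨∏ l ∈ range h, (C 1 * X ^ 2 + C (-(s * (P ((l : ℤ) - (2 * h : ℕ)) + P (-1 - l)))) * X
        + C (α * (P ((l : ℤ) - (2 * h : ℕ)) * (P (-1 - l))⁻¹) + α * (P (-1 - l) * (P ((l : ℤ) - (2 * h : ℕ)))⁻¹)
          + s ^ 2 * P ((l : ℤ) - (2 * h : ℕ)) * P (-1 - l) - 2 * α)), ?_, ?_⟩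
    · refine (natDegree_prod_le _ _).trans ?_
      refine (sum_le_sum (fun l _ => natDegree_quadratic_le)).trans ?_
      simp [mul_comm]
    · intro k
      have hx : (P k) ^ (2 * h) = ∏ _l ∈ range h, (P k) ^ 2 := by
        rw [prod_const, card_range, pow_mul]
      rw [prod_pair, eval_prod, hx, ← prod_mul_distrib]
      refine prod_congr rfl fun l hl => ?_
      have := mem_range.1 hl
      exact hF k l (2 * h) (by omega)
  · subst hm
    refine ⟨(∏ l ∈ range h, (C 1 * X ^ 2 + C (-(s * (P ((l : ℤ) - (2 * h + 1 : ℕ)) + P (-1 - l)))) * X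
        + C (α * (P ((l : ℤ) - (2 * h + 1 : ℕ)) * (P (-1 - l))⁻¹) + α * (P (-1 - l) * (P ((l : ℤ) - (2 * h + 1 : ℕ)))⁻¹)
          + s ^ 2 * P ((l : ℤ) - (2 * h + 1 : ℕ)) * P (-1 - l) - 2 * α))) * (X - C (s * P (-1 - h))), ?_, ?_⟩
    · refine natDegree_mul_le.trans ?_
      refine add_le_add ?_ (natDegree_X_sub_C_le _)
      refine (natDegree_prod_le _ _).trans ?_
      refine (sum_le_sum (fun l _ => natDegree_quadratic_le)).trans ?_
      simp [mul_comm]
    · intro k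
      have hx : (P k) ^ (2 * h + 1) = (∏ _l ∈ range h, (P k) ^ 2) * P k := by
        rw [prod_const, card_range, pow_succ, pow_mul]
      rw [prod_pair_odd, eval_mul, eval_prod, hx]
      have h1 : ∏ l ∈ range h, ((1 - s * P ((l : ℤ) - (2 * h + 1 : ℕ)) * P k + α * P (2 * l + 1 - (2 * h + 1 : ℕ)) * P k ^ 2) *
        (1 - s * P (((2 * h - l : ℕ) : ℤ) - (2 * h + 1 : ℕ)) * P k + α * P (2 * ((2 * h - l : ℕ) : ℤ) + 1 - (2 * h + 1 : ℕ)) * P k ^ 2))
        = (∏ _l ∈ range h, (P k) ^ 2) * ∏ l ∈ range h, (C 1 * X ^ 2 + C (-(s * (P ((l : ℤ) - (2 * h + 1 : ℕ)) + P (-1 - l)))) * X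
        + C (α * (P ((l : ℤ) - (2 * h + 1 : ℕ)) * (P (-1 - l))⁻¹) + α * (P (-1 - l) * (P ((l : ℤ) - (2 * h + 1 : ℕ)))⁻¹)
          + s ^ 2 * P ((l : ℤ) - (2 * h + 1 : ℕ)) * P (-1 - l) - 2 * α)).eval ((P k)⁻¹ + α * P k) := by
        rw [← prod_mul_distrib]
        refine prod_congr rfl fun l hl => ?_
        have := mem_range.1 hl
        have h2 := hF k l (2 * h + 1) (by omega)
        have h3 : 2 * h + 1 - 1 - l = 2 * h - l := by omega
        rw [h3] at h2
        exact h2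
      rw [h1]
      have e1 : ((h : ℤ) - (2 * h + 1 : ℕ)) = -1 - h := by push_cast; ring
      have e2 : (2 * (h : ℤ) + 1 - (2 * h + 1 : ℕ)) = 0 := by push_cast; ring
      rw [e1, e2, h0]
      simp only [eval_sub, eval_X, eval_C]
      have := hne k
      field_simp
      ring

/-- pairing for the self-dual linear factor -/
theorem selfF (P : ℤ → K) (hadd : ∀ a b, P (a + b) = P a * P b) (h0 : P 0 = 1)
    (α e : K) (he : e ^ 2 = α * P 1) (M : ℕ) :
    ∃ f : K[X], f.natDegree ≤ M ∧ ∀ k : ℕ,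
      ∏ l ∈ range (2 * M), (1 - e * P ((l : ℤ) - M) * P k)
        = P k ^ M * f.eval ((P k)⁻¹ + α * P k) := by
  have hne : ∀ z, P z ≠ 0 := by
    intro z hz
    have := hadd z (-z)
    rw [add_neg_cancel, h0, hz, zero_mul] at this
    exact one_ne_zero this
  refine ⟨∏ l ∈ range M, (X - C (e * (P ((l : ℤ) - M) + P (M - 1 - l)))), ?_, ?_⟩
  · refine (natDegree_prod_le _ _).trans ?_
    refine (sum_le_sum (fun l _ => natDegree_X_sub_C_le _)).trans ?_
    simp
  · intro k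
    have hx : (P k) ^ M = ∏ _l ∈ range M, P k := by
      rw [prod_const, card_range]
    rw [prod_pair, eval_prod, hx, ← prod_mul_distrib]
    refine prod_congr rfl fun l hl => ?_
    have := mem_range.1 hl
    have hc : ((2 * M - 1 - l : ℕ) : ℤ) = 2 * M - 1 - l := by omega
    have e1 : ((2 * M : ℤ) - 1 - l) - M = M - 1 - l := by ring
    rw [hc, e1]
    have e2 : e ^ 2 * P ((l : ℤ) - M) * P (M - 1 - l) = α := by
      rw [he, mul_assoc, mul_assoc, ← hadd, ← hadd]
      have : (1 : ℤ) + ((l : ℤ) - M + (M - 1 - l)) = 0 := by ring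
      rw [this, h0, mul_one]
    simp only [eval_sub, eval_X, eval_C]
    have h3 := hne k
    generalize P ((l : ℤ) - M) = u at *
    generalize P ((M : ℤ) - 1 - l) = v at *
    rw [← e2]
    field_simp
    ring

end Pal

end N719QC
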