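import Pool.Agent.N719.QC.Zero
import Pool.Agent.N719.QC.Anti
import Pool.Agent.N719.QC.Cong

namespace N719QC

open Finset Polynomial

section common
variable {O K : Type*} [CommRing O] [Field K]

theorem map_sum_tm {A B : Type*} [CommRing A] [CommRing B] (φ : A →+* B) (p α e : Aˣ) (d n : ℕ)
    (E : A[X]) :
    φ (∑ k ∈ range n, tm p α e d n E k) = ∑ k ∈ range n, tm (Units.map (φ : A →* B) p)
      (Units.map (φ : A →* B) α) (Units.map (φ : A →* B) e) d n (E.map φ) k := by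
  rw [map_sum]
  exact sum_congr rfl fun k _ => map_tm φ p α e d n E k

theorem exists_zero (ι : O →+* K) (hι : Function.Injective ι) (q : Oˣ)
    (hq : ∀ z : ℤ, z ≠ 0 → ι ((q ^ z : Oˣ) : O) ≠ 1)
    (Φ : O) (h2 : IsUnit (2 : O)) (d n k m N M : ℕ) (r ee t c : ℤ)
    (hΦ : Φ ∣ ((q ^ (n : ℤ) : Oˣ) : O) - 1)
    (hr : r = 1 ∨ r = -1) (hd : d = 2 * k + 5) (hee : 2 * ee = r + d)
    (h1 : (d : ℤ) * (m + 1) = t * n + r) (hN : N + m + 1 = n)
    (h3 : 2 * (d : ℤ) * M = 2 * c * n + r - d) (h4 : (k + 1) * m + M < N)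
    (h5 : (t - d) + c + (k + 1) * t = 0) :
    ∃ E' : O[X], (C (Φ ^ 3) ∣ E' - (1 - C ((q ^ r : Oˣ) : O) * X) ^ (d - 1)) ∧
      ∑ j ∈ range n, tm (q ^ (d : ℤ)) (q ^ r) (q ^ ee) d n E' j = 0 := by
  set Q : Oˣ := q ^ (n : ℤ) with hQ
  set κ : O := -((((Q ^ (t - d) : Oˣ) : O) - 1) + (((Q ^ c : Oˣ) : O) - 1)
    + (k + 1) * (((Q ^ t : Oˣ) : O) - 1)) with hκ
  set s : ℕ → O := fun i => if i = 0 then ((q ^ r : Oˣ) : O) * (1 + ((Q ^ t : Oˣ) : O) + κ)
    else ((q ^ r : Oˣ) : O) * (1 + ((Q ^ t : Oˣ) : O)) with hs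
  have u1 : q ^ r * Q ^ (t - d) = (q ^ (d : ℤ)) ^ (-(N : ℤ)) := by
    rw [hQ, ← zpow_mul, ← zpow_mul, ← zpow_add]
    congr 1
    have hn : (n : ℤ) = N + m + 1 := by omega
    have : (d : ℤ) * n = d * N + d * (m + 1) := by rw [hn]; ring
    linear_combination (-1 : ℤ) * this - h1
  have u2 : q ^ r * Q ^ c = q ^ ee * (q ^ (d : ℤ)) ^ M := by
    rw [hQ, ← zpow_natCast (q ^ (d : ℤ)) M, ← zpow_mul, ← zpow_mul, ← zpow_add, ← zpow_add]
    congr 1
    have : 2 * (r + n * c) = 2 * (ee + d * M) := by linear_combination (-1 : ℤ) * h3 - hee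
    omega
  have u3 : q ^ r * q ^ r * Q ^ t = (q ^ ee) ^ 2 * (q ^ (d : ℤ)) ^ m := by
    rw [hQ, ← zpow_natCast (q ^ (d : ℤ)) m, ← zpow_natCast (q ^ ee) 2, ← zpow_mul, ← zpow_mul, ← zpow_mul,
      ← zpow_add, ← zpow_add, ← zpow_add]
    congr 1
    push_cast
    linear_combination (-1 : ℤ) * h1 - hee
  refine ⟨(1 - C ((q ^ r * Q ^ (t - d) : Oˣ) : O) * X) * (1 - C ((q ^ r * Q ^ c : Oˣ) : O) * X)
    * ∏ i ∈ range (k + 1), (1 - C (s i) * X + C ((q ^ r * q ^ r * Q ^ t : Oˣ) : O) * X ^ 2), ?_, ?_⟩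
  · -- congruence
    set I : Ideal O := Ideal.span {Φ ^ 3} with hI
    set ψ : O →+* (O ⧸ I)[X] := (C : (O ⧸ I) →+* (O ⧸ I)[X]).comp (Ideal.Quotient.mk I) with hψ
    have hφ : (ψ Φ) ^ 3 = 0 := by
      rw [← map_pow, hψ, RingHom.comp_apply, Ideal.Quotient.eq_zero_iff_mem.2, map_zero]
      exact Ideal.mem_span_singleton_self _
    have h2' : IsUnit (2 : (O ⧸ I)[X]) := by
      have := h2.map ψ
      rwa [map_ofNat] at this
    have hunitψ : ∀ u : Oˣ, ((Units.map (ψ : O →* (O ⧸ I)[X]) u : ((O ⧸ I)[X])ˣ) : (O ⧸ I)[X]) = ψ u :=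
      fun _ => rfl
    obtain ⟨η, hη⟩ := hΦ
    have hQ' : ((Units.map (ψ : O →* (O ⧸ I)[X]) Q : ((O ⧸ I)[X])ˣ) : (O ⧸ I)[X]) - 1 = ψ Φ * ψ η := by
      rw [← map_mul, ← hη, map_sub, map_one]; rfl
    have hcong := cong (ψ Φ) (ψ η) hφ h2' (Units.map (ψ : O →* (O ⧸ I)[X]) Q) hQ' k (t - d) c t h5 (ψ κ)
      (ψ ((q ^ r : Oˣ) : O) * X) (by
        rw [hκ]
        simp only [← map_zpow, hunitψ, map_neg, map_add, map_mul, map_sub, map_one, map_natCast])
    simp only [← map_zpow, hunitψ] at hcong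
    rw [C_dvd_iff_dvd_coeff]
    intro i
    rw [← Ideal.mem_span_singleton, ← hI, ← Ideal.Quotient.eq_zero_iff_mem, ← coeff_map]
    have hz : Polynomial.map (Ideal.Quotient.mk I) ((1 - C ((q ^ r * Q ^ (t - d) : Oˣ) : O) * X) * (1 - C ((q ^ r * Q ^ c : Oˣ) : O) * X)
    * ∏ i ∈ range (k + 1), (1 - C (s i) * X + C ((q ^ r * q ^ r * Q ^ t : Oˣ) : O) * X ^ 2)
      - (1 - C ((q ^ r : Oˣ) : O) * X) ^ (d - 1)) = 0 := by
      have hmc : ∀ x : O, Polynomial.map (Ideal.Quotient.mk I) (C x) = ψ x := by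
        intro x; rw [Polynomial.map_C]; rfl
      rw [prod_range_succ']
      simp only [hs, Nat.add_eq_zero_iff, one_ne_zero, and_false, if_false, if_true, prod_const, card_range]
      simp only [Polynomial.map_sub, Polynomial.map_mul, Polynomial.map_pow, Polynomial.map_add,
        Polynomial.map_one, Polynomial.map_X, hmc, Units.val_mul, map_mul, map_add, map_one]
      rw [show d - 1 = 2 * k + 4 by omega, ← hcong]
      ring
    rw [hz, coeff_zero]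
  · apply hι
    rw [map_zero, map_sum_tm]
    have hunit : ∀ u : Oˣ, ((Units.map (ι : O →* K) u : Kˣ) : K) = ι u := fun u => rfl
    have hdr : ¬ (d : ℤ) ∣ r := by
      intro h
      have h1' : (d : ℤ) ∣ 1 := by
        rcases hr with hr | hr
        · rwa [hr] at h
        · rw [hr] at h; exact (dvd_neg.1 h)
      have := Int.le_of_dvd (by norm_num) h1'
      omega
    refine km (Units.map (ι : O →* K) (q ^ (d : ℤ))) (Units.map (ι : O →* K) (q ^ r))
      (Units.map (ι : O →* K) (q ^ ee)) d n m M (k + 1) N (fun i => ι (s i)) (by omega) ?_ hN h4 ?_ ?_ ?_ _ ?_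
    · rw [← map_pow, ← map_mul, ← zpow_natCast (q ^ ee) 2, ← zpow_mul, ← zpow_add]
      congr 2
      push_cast
      linear_combination hee
    · intro i hi _
      rw [← map_pow, hunit, ← zpow_natCast, ← zpow_mul]
      apply hq
      have hd0 : (0 : ℤ) < d := by omega
      have hi0 : (0 : ℤ) < i := by omega
      exact (mul_pos hd0 hi0).ne'
    · intro i _
      rw [← map_pow, ← map_mul, hunit, ← zpow_natCast, ← zpow_mul, ← zpow_add]
      apply hq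
      intro h
      exact hdr ⟨-i, by linarith⟩
    · intro z
      rw [← map_zpow, ← map_mul, hunit, ← zpow_mul, ← zpow_add]
      apply hq
      intro h
      exact hdr ⟨-2 * z - 1, by linarith⟩
    · simp only [Polynomial.map_sub, Polynomial.map_mul, Polynomial.map_pow, Polynomial.map_add,
        Polynomial.map_one, Polynomial.map_X, Polynomial.map_C, Polynomial.map_prod]
      rw [u1, u2, u3]
      simp only [← map_zpow, ← map_pow, ← map_mul, hunit]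

theorem main3 (ι : O →+* K) (hι : Function.Injective ι) (q : Oˣ)
    (hq : ∀ z : ℤ, z ≠ 0 → ι ((q ^ z : Oˣ) : O) ≠ 1)
    (Φ : O) (h2 : IsUnit (2 : O)) (d n k m N M : ℕ) (r ee t c : ℤ)
    (hΦ : Φ ∣ ((q ^ (n : ℤ) : Oˣ) : O) - 1)
    (hr : r = 1 ∨ r = -1) (hd : d = 2 * k + 5) (hee : 2 * ee = r + d)
    (h1 : (d : ℤ) * (m + 1) = t * n + r) (hN : N + m + 1 = n)
    (h3 : 2 * (d : ℤ) * M = 2 * c * n + r - d) (h4 : (k + 1) * m + M < N)
    (h5 : (t - d) + c + (k + 1) * t = 0) :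
    Φ ^ 3 ∣ ∑ j ∈ range n, tm (q ^ (d : ℤ)) (q ^ r) (q ^ ee) d n
      ((1 - C ((q ^ r : Oˣ) : O) * X) ^ (d - 1)) j := by
  obtain ⟨E', ⟨Δ, hΔ⟩, hz⟩ := exists_zero ι hι q hq Φ h2 d n k m N M r ee t c hΦ hr hd hee h1 hN h3 h4 h5
  set I : Ideal O := Ideal.span {Φ ^ 3} with hI
  rw [← Ideal.mem_span_singleton, ← hI, ← Ideal.Quotient.eq_zero_iff_mem, map_sum_tm]
  have hE : Polynomial.map (Ideal.Quotient.mk I) ((1 - C ((q ^ r : Oˣ) : O) * X) ^ (d - 1))
      = Polynomial.map (Ideal.Quotient.mk I) E' := by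
    have h0 : Ideal.Quotient.mk I (Φ ^ 3) = 0 := by
      rw [Ideal.Quotient.eq_zero_iff_mem]; exact Ideal.mem_span_singleton_self _
    have h6 : E' = (1 - C ((q ^ r : Oˣ) : O) * X) ^ (d - 1) + C (Φ ^ 3) * Δ := by
      rw [← hΔ]; ring
    rw [h6, Polynomial.map_add, Polynomial.map_mul, Polynomial.map_C, h0]
    simp
  rw [hE, ← map_sum_tm, hz, map_zero]

theorem main4 (ι : O →+* K) (hι : Function.Injective ι) (q : Oˣ)
    (hq : ∀ z : ℤ, z ≠ 0 → ι ((q ^ z : Oˣ) : O) ≠ 1)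
    (Φ : O) (h2 : IsUnit (2 : O)) (d n k m N M : ℕ) (r ee t c : ℤ)
    (hΦ : Φ ∣ ((q ^ (n : ℤ) : Oˣ) : O) - 1)
    (hr : r = 1 ∨ r = -1) (hd : d = 2 * k + 5) (hee : 2 * ee = r + d)
    (h1 : (d : ℤ) * (m + 1) = t * n + r) (hN : N + m + 1 = n)
    (h3 : 2 * (d : ℤ) * M = 2 * c * n + r - d) (h4 : (k + 1) * m + M < N)
    (h5 : (t - d) + c + (k + 1) * t = 0)
    (h6 : r + (d : ℤ) * N = ((d : ℤ) - 2) * n)
    (h7 : Even N ∨ (Odd N ∧ ∃ n2 : ℕ, n = 2 * n2 ∧ Φ ∣ ((q ^ (n2 : ℤ) : Oˣ) : O) + 1)) :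
    Φ ^ 4 ∣ ∑ j ∈ range n, tm (q ^ (d : ℤ)) (q ^ r) (q ^ ee) d n
      ((1 - C ((q ^ r : Oˣ) : O) * X) ^ (d - 1)) j := by
  obtain ⟨E', ⟨Δ, hΔ⟩, hz⟩ := exists_zero ι hι q hq Φ h2 d n k m N M r ee t c hΦ hr hd hee h1 hN h3 h4 h5
  set E0 : O[X] := (1 - C ((q ^ r : Oˣ) : O) * X) ^ (d - 1) with hE0
  have hE' : E' = E0 + C (Φ ^ 3) * Δ := by rw [← hΔ]; ring
  have hC : ∀ u : Oˣ, ∀ x : O, Units.map ((evalRingHom x : O[X] →+* O) : O[X] →* O) (Units.map ((C : O →+* O[X]) : O →* O[X]) u) = u := by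
    intro u x
    apply Units.ext
    simp
  set P : O[X] := ∑ j ∈ range n, tm (Units.map ((C : O →+* O[X]) : O →* O[X]) (q ^ (d : ℤ)))
    (Units.map ((C : O →+* O[X]) : O →* O[X]) (q ^ r)) (Units.map ((C : O →+* O[X]) : O →* O[X]) (q ^ ee)) d n
    (E0.map C + C X * Δ.map C) j with hP
  have hcomp : ∀ x : O, (evalRingHom x).comp (C : O →+* O[X]) = RingHom.id O := by
    intro x; ext y; simp
  have hev : ∀ x : O, P.eval x = ∑ j ∈ range n, tm (q ^ (d : ℤ)) (q ^ r) (q ^ ee) d n (E0 + C x * Δ) j := by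
    intro x
    have h8 := map_sum_tm (evalRingHom x) (Units.map ((C : O →+* O[X]) : O →* O[X]) (q ^ (d : ℤ)))
      (Units.map ((C : O →+* O[X]) : O →* O[X]) (q ^ r)) (Units.map ((C : O →+* O[X]) : O →* O[X]) (q ^ ee)) d n
      (E0.map C + C X * Δ.map C)
    rw [← hP, coe_evalRingHom] at h8
    rw [h8, hC, hC, hC]
    congr 1
    ext j
    congr 1
    rw [Polynomial.map_add, Polynomial.map_mul, Polynomial.map_map, Polynomial.map_map, hcomp, Polynomial.map_id,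
      Polynomial.map_id, Polynomial.map_C]
    simp
  -- the image in the residue ring vanishes
  set I : Ideal O := Ideal.span {Φ} with hI
  have hPz : P.map (Ideal.Quotient.mk I) = 0 := by
    have h8 := map_sum_tm (mapRingHom (Ideal.Quotient.mk I)) (Units.map ((C : O →+* O[X]) : O →* O[X]) (q ^ (d : ℤ)))
      (Units.map ((C : O →+* O[X]) : O →* O[X]) (q ^ r)) (Units.map ((C : O →+* O[X]) : O →* O[X]) (q ^ ee)) d n
      (E0.map C + C X * Δ.map C)
    rw [← hP, coe_mapRingHom] at h8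
    rw [h8]
    set θ : O →+* (O ⧸ I)[X] := (C : (O ⧸ I) →+* (O ⧸ I)[X]).comp (Ideal.Quotient.mk I) with hθ
    have hU : ∀ u : Oˣ, Units.map ((mapRingHom (Ideal.Quotient.mk I) : O[X] →+* (O ⧸ I)[X]) : O[X] →* (O ⧸ I)[X])
        (Units.map ((C : O →+* O[X]) : O →* O[X]) u) = Units.map (θ : O →* (O ⧸ I)[X]) u := by
      intro u
      apply Units.ext
      simp [hθ]
    rw [hU, hU, hU]
    have hθ0 : θ Φ = 0 := by
      rw [hθ, RingHom.comp_apply, Ideal.Quotient.eq_zero_iff_mem.2 (Ideal.mem_span_singleton_self _), map_zero]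
    have hθdvd : ∀ x y : O, Φ ∣ x - y → θ x = θ y := by
      rintro x y ⟨z, hz⟩
      have : θ (x - y) = 0 := by rw [hz, map_mul, hθ0, zero_mul]
      rw [map_sub] at this
      exact sub_eq_zero.1 this
    have hQ1 : Units.map (θ : O →* (O ⧸ I)[X]) (q ^ (n : ℤ)) = 1 := by
      apply Units.ext
      have := hθdvd _ _ (show Φ ∣ ((q ^ (n : ℤ) : Oˣ) : O) - 1 from hΦ)
      rw [map_one] at this
      exact this
    have h2' : IsUnit (2 : (O ⧸ I)[X]) := by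
      have := h2.map θ
      rwa [map_ofNat] at this
    refine anti _ _ _ d n N _ ⟨k + 2, by omega⟩ (by omega) (by omega) ?_ ?_ ?_ h2'
    · rw [← map_pow, ← map_mul, ← zpow_natCast (q ^ (d : ℤ)) N, ← zpow_mul, ← zpow_add, h6, mul_comm, zpow_mul,
        map_zpow, hQ1, one_zpow]
    · rw [← map_pow, ← map_mul, ← zpow_natCast (q ^ ee) 2, ← zpow_mul, ← zpow_add]
      congr 2
      push_cast
      linear_combination hee
    · rcases h7 with h7 | ⟨h7, n2, hn2, h8⟩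
      · exact Or.inl h7
      · refine Or.inr ⟨h7, ?_⟩
        obtain ⟨h, hh⟩ := h7
        have hh2 : (N - 1) / 2 = h := by omega
        rw [hh2, ← map_pow, ← map_mul, ← zpow_natCast (q ^ (d : ℤ)) h, ← zpow_mul, ← zpow_add]
        have e1 : ee + (d : ℤ) * h = (n2 : ℤ) * ((d : ℤ) - 2) := by
          have hNz : (N : ℤ) = 2 * h + 1 := by omega
          have hnz : (n : ℤ) = 2 * n2 := by omega
          rw [hNz, hnz] at h6
          have : 2 * (ee + (d : ℤ) * h) = 2 * ((n2 : ℤ) * ((d : ℤ) - 2)) := by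
            linear_combination hee + h6
          omega
        rw [e1, zpow_mul, map_zpow]
        have e2 : Units.map (θ : O →* (O ⧸ I)[X]) (q ^ (n2 : ℤ)) = -1 := by
          apply Units.ext
          have := hθdvd _ _ (show Φ ∣ ((q ^ (n2 : ℤ) : Oˣ) : O) - (-1) by rwa [sub_neg_eq_add])
          rw [map_neg, map_one] at this
          rw [Units.val_neg, Units.val_one]
          exact this
        rw [e2]
        have hodd : Odd ((d : ℤ) - 2) := ⟨k + 1, by push_cast [hd]; ring⟩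
        exact hodd.neg_one_zpow
  have hdvd : C Φ ∣ P := by
    rw [C_dvd_iff_dvd_coeff]
    intro i
    rw [← Ideal.mem_span_singleton, ← hI, ← Ideal.Quotient.eq_zero_iff_mem, ← coeff_map, hPz, coeff_zero]
  obtain ⟨W, hW⟩ := hdvd
  have ev0 := hev 0
  have ev3 := hev (Φ ^ 3)
  rw [← hE', hz] at ev3
  rw [C_0, zero_mul, add_zero] at ev0
  rw [← ev0]
  rw [hW, eval_mul, eval_C] at ev3 ⊢
  have h9 : (0 : O) - Φ ^ 3 ∣ W.eval 0 - W.eval (Φ ^ 3) := Polynomial.sub_dvd_eval_sub 0 (Φ ^ 3) W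
  obtain ⟨y, hy⟩ := h9
  refine ⟨-y, ?_⟩
  linear_combination ev3 + Φ * hy

end common

end N719QC
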