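import Pool.Agent.N719.QC.Main

namespace N719QC

open Finset Polynomial

/-- the embedding of `ℤ[q]` in `ℚ(q)` -/
noncomputable def ev : ℤ[X] →+* RatFunc ℚ :=
  (algebraMap ℚ[X] (RatFunc ℚ)).comp (mapRingHom (Int.castRingHom ℚ))

theorem ev_inj : Function.Injective ev := by
  unfold ev
  rw [RingHom.coe_comp]
  refine (RatFunc.algebraMap_injective ℚ).comp ?_
  rw [coe_mapRingHom]
  exact Polynomial.map_injective _ (RingHom.injective_int (Int.castRingHom ℚ))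

theorem ev_X : ev X = RatFunc.X := by
  simp [ev, RatFunc.algebraMap_X]

theorem ev_ne {a : ℤ[X]} (ha : a ≠ 0) : ev a ≠ 0 := by
  intro h
  exact ha (ev_inj (by rw [h, map_zero]))

section cyc
variable (n : ℕ)

theorem cyc_prime (hn : 0 < n) : Prime (cyclotomic n ℤ) := (cyclotomic.irreducible hn).prime

theorem cyc_ndvd (hn : 0 < n) (k : ℕ) (h : cyclotomic n ℤ ∣ X ^ k - 1) : n ∣ k := by
  have hζ := Complex.isPrimitiveRoot_exp n hn.ne'
  set ζ := Complex.exp (2 * Real.pi * Complex.I / n) with hζdef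
  have hroot : (cyclotomic n ℂ).IsRoot ζ := hζ.isRoot_cyclotomic hn
  have h2 : (cyclotomic n ℂ) ∣ X ^ k - 1 := by
    have := Polynomial.map_dvd (Int.castRingHom ℂ) h
    simpa [Polynomial.map_cyclotomic] using this
  have h3 : (X ^ k - 1 : ℂ[X]).IsRoot ζ := hroot.dvd h2
  rw [IsRoot.def] at h3
  simp only [eval_sub, eval_pow, eval_X, eval_one] at h3
  exact hζ.dvd_of_pow_eq_one k (sub_eq_zero.1 h3)

theorem cyc_ndvd_X (hn : 2 ≤ n) : ¬ cyclotomic n ℤ ∣ X := by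
  intro h
  have h1 : cyclotomic n ℤ ∣ X ^ n - 1 := cyclotomic.dvd_X_pow_sub_one n ℤ
  have h2 : cyclotomic n ℤ ∣ X ^ n := h.trans (dvd_pow_self X (by omega))
  have h3 : cyclotomic n ℤ ∣ 1 := by
    have := dvd_sub h2 h1
    rwa [sub_sub_cancel] at this
  exact (cyc_prime n (by omega)).not_isUnit (isUnit_of_dvd_one h3)

theorem cyc_ndvd_C (hn : 2 ≤ n) (c : ℤ) (hc : c ≠ 0) : ¬ cyclotomic n ℤ ∣ C c := by
  intro h
  have h1 := natDegree_le_of_dvd h (C_ne_zero.2 hc)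
  rw [natDegree_C, natDegree_cyclotomic] at h1
  have := Nat.totient_pos.2 (show 0 < n by omega)
  omega

/-- local ring at `Φ_n` -/
noncomputable def OO (hn : 2 ≤ n) : Subring (RatFunc ℚ) where
  carrier := {x | ∃ a b : ℤ[X], ¬ cyclotomic n ℤ ∣ b ∧ x * ev b = ev a}
  mul_mem' := by
    rintro x y ⟨a, b, hb, h⟩ ⟨a', b', hb', h'⟩
    refine ⟨a * a', b * b', ?_, ?_⟩
    · intro hd
      rcases (cyc_prime n (by omega)).dvd_or_dvd hd with h1 | h1
      · exact hb h1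
      · exact hb' h1
    · rw [map_mul, map_mul, ← h, ← h']; ring
  one_mem' := ⟨1, 1, fun h => (cyc_prime n (by omega)).not_isUnit (isUnit_of_dvd_one h), by simp⟩
  add_mem' := by
    rintro x y ⟨a, b, hb, h⟩ ⟨a', b', hb', h'⟩
    refine ⟨a * b' + a' * b, b * b', ?_, ?_⟩
    · intro hd
      rcases (cyc_prime n (by omega)).dvd_or_dvd hd with h1 | h1
      · exact hb h1
      · exact hb' h1
    · rw [map_add, map_mul, map_mul, map_mul, ← h, ← h']; ring
  zero_mem' := ⟨0, 1, fun h => (cyc_prime n (by omega)).not_isUnit (isUnit_of_dvd_one h), by simp⟩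
  neg_mem' := by
    rintro x ⟨a, b, hb, h⟩
    exact ⟨-a, b, hb, by rw [map_neg, ← h]; ring⟩

theorem ev_mem (hn : 2 ≤ n) (a : ℤ[X]) : ev a ∈ OO n hn :=
  ⟨a, 1, fun h => (cyc_prime n (by omega)).not_isUnit (isUnit_of_dvd_one h), by simp⟩

theorem inv_mem (hn : 2 ≤ n) (b : ℤ[X]) (hb : ¬ cyclotomic n ℤ ∣ b) : (ev b)⁻¹ ∈ OO n hn := by
  refine ⟨1, b, hb, ?_⟩
  have : b ≠ 0 := by rintro rfl; exact hb (dvd_zero _)
  rw [inv_mul_cancel₀ (ev_ne this), map_one]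

/-- units of the local ring -/
noncomputable def mkU (hn : 2 ≤ n) (b : ℤ[X]) (hb : ¬ cyclotomic n ℤ ∣ b) : (OO n hn)ˣ where
  val := ⟨ev b, ev_mem n hn b⟩
  inv := ⟨(ev b)⁻¹, inv_mem n hn b hb⟩
  val_inv := by
    have : b ≠ 0 := by rintro rfl; exact hb (dvd_zero _)
    apply Subtype.ext
    exact mul_inv_cancel₀ (ev_ne this)
  inv_val := by
    have : b ≠ 0 := by rintro rfl; exact hb (dvd_zero _)
    apply Subtype.ext
    exact inv_mul_cancel₀ (ev_ne this)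

end cyc

theorem X_zpow_ne_one (z : ℤ) (hz : z ≠ 0) : (RatFunc.X : RatFunc ℚ) ^ z ≠ 1 := by
  have hnat : ∀ k : ℕ, (RatFunc.X : RatFunc ℚ) ^ k = 1 → k = 0 := by
    intro k hk
    rw [← RatFunc.algebraMap_X, ← map_pow, ← map_one (algebraMap ℚ[X] (RatFunc ℚ))] at hk
    have h2 := RatFunc.algebraMap_injective ℚ hk
    have h3 := congrArg natDegree h2
    simpa using h3
  intro h
  rcases Int.le_total 0 z with h0 | h0
  · lift z to ℕ using h0
    rw [zpow_natCast] at h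
    have := hnat z h
    omega
  · obtain ⟨k, hk⟩ := Int.eq_ofNat_of_zero_le (show 0 ≤ -z by omega)
    have hz' : z = -(k : ℤ) := by omega
    rw [hz', zpow_neg, zpow_natCast, inv_eq_one] at h
    have := hnat k h
    omega

/-- the unperturbed term -/
theorem tm_E0 {K : Type*} [Field K] (p α e : Kˣ) (ω : K) (d n k : ℕ) (hd : Odd d) (hd3 : 3 ≤ d) (hk : k < n)
    (hω : ω * (α : K) ^ (d - 1) = (e : K) ^ (d - 2))
    (hp : ∀ i : ℕ, i < n - 1 → (1 - (p : K) ^ (i + 1)) ≠ 0) :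
    tm p α e d n ((1 - C (α : K) * X) ^ (d - 1)) k
      = ((α : K) ^ ((d - 1) * (n - 1)) * (∏ j ∈ range (n - 1), (1 - (p : K) ^ (j + 1))) ^ d)
        * ((1 - (α : K) * p ^ (2 * k)) * ω ^ k *
          ((∏ j ∈ range k, (1 - (α : K) * p ^ j)) / ∏ j ∈ range k, (1 - (p : K) ^ (j + 1))) ^ d) := by
  unfold tm
  have hd1 : d = (d - 1) + 1 := by omega
  have hev : Even (d - 1) := by
    obtain ⟨c, hc⟩ := hd
    exact ⟨c, by omega⟩
  have h1 : ∏ j ∈ range k, (1 - ((α * p ^ j : Kˣ) : K)) * ((1 - C (α : K) * X) ^ (d - 1)).eval ((p ^ j : Kˣ) : K)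
      = (∏ j ∈ range k, (1 - (α : K) * p ^ j)) ^ d := by
    rw [← prod_pow]
    refine prod_congr rfl fun j _ => ?_
    simp only [eval_pow, eval_sub, eval_one, eval_mul, eval_C, eval_X, Units.val_mul, Units.val_pow_eq_pow_val]
    conv_rhs => rw [hd1]
    rw [pow_succ]; ring
  have h2 : ∏ j ∈ Ico k (n - 1), (1 - ((p ^ (j + 1) : Kˣ) : K)) *
      (((α * p ^ (j + 1) : Kˣ) : K) ^ (d - 1) * ((1 - C (α : K) * X) ^ (d - 1)).eval (((α * p ^ (j + 1))⁻¹ : Kˣ) : K))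
      = ((α : K) ^ (d - 1)) ^ (n - 1 - k) * (∏ j ∈ Ico k (n - 1), (1 - (p : K) ^ (j + 1))) ^ d := by
    have h3 : ((α : K) ^ (d - 1)) ^ (n - 1 - k) = ∏ _j ∈ Ico k (n - 1), ((α : K) ^ (d - 1)) := by
      rw [prod_const, Nat.card_Ico]
    rw [h3, ← prod_pow, ← prod_mul_distrib]
    refine prod_congr rfl fun j _ => ?_
    simp only [eval_pow, eval_sub, eval_one, eval_mul, eval_C, eval_X, Units.val_mul, Units.val_pow_eq_pow_val,
      Units.val_inv_eq_inv_val]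
    have hα : (α : K) ≠ 0 := Units.ne_zero _
    have hp0 : (p : K) ≠ 0 := Units.ne_zero _
    rw [← mul_pow]
    have h4 : (α : K) * (p : K) ^ (j + 1) * (1 - (α : K) * ((α : K) * (p : K) ^ (j + 1))⁻¹) = -((α : K) * (1 - (p : K) ^ (j + 1))) := by
      field_simp
      ring
    rw [h4, hev.neg_pow, mul_pow]
    conv_rhs => rw [hd1]
    rw [pow_succ, Nat.add_sub_cancel]; ring
  rw [h1, h2]
  have h5 : ∏ j ∈ range (n - 1), (1 - (p : K) ^ (j + 1))
      = (∏ j ∈ range k, (1 - (p : K) ^ (j + 1))) * ∏ j ∈ Ico k (n - 1), (1 - (p : K) ^ (j + 1)) := by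
    rw [range_eq_Ico, range_eq_Ico, prod_Ico_consecutive _ (by omega) (by omega)]
  rw [h5]
  have h6 : ∏ j ∈ range k, (1 - (p : K) ^ (j + 1)) ≠ 0 := by
    rw [prod_ne_zero_iff]
    intro i hi
    exact hp i (by have := mem_range.1 hi; omega)
  have h7 : (α : K) ^ ((d - 1) * (n - 1)) = ((α : K) ^ (d - 1)) ^ (n - 1 - k) * ((α : K) ^ (d - 1)) ^ k := by
    rw [pow_mul, ← pow_add]; congr 1; omega
  have h8 : ((e ^ ((d - 2) * k) : Kˣ) : K) = ω ^ k * ((α : K) ^ (d - 1)) ^ k := by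
    rw [← mul_pow, hω, Units.val_pow_eq_pow_val, pow_mul]
  rw [h7, h8, div_pow, Units.val_mul, Units.val_pow_eq_pow_val, mul_pow]
  generalize (∏ j ∈ range k, (1 - (p : K) ^ (j + 1))) = D1 at *
  generalize (∏ j ∈ Ico k (n - 1), (1 - (p : K) ^ (j + 1))) = D2 at *
  generalize (∏ j ∈ range k, (1 - (α : K) * p ^ j)) = D3 at *
  generalize (((α : K) ^ (d - 1)) ^ (n - 1 - k)) = D4 at *
  generalize (((α : K) ^ (d - 1)) ^ k) = D5 at *
  field_simp

end N719QC
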