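import Pool.Agent.N719.QC.KM

namespace N719QC

open Finset Polynomial

variable {K : Type*} [Field K]

/-- vanishing of the divided difference -/
theorem divdiff (μ : ℕ → K) (N : ℕ) (hμ : Set.InjOn μ (range (N + 1) : Finset ℕ)) (f : K[X])
    (hf : f.natDegree < N) :
    ∑ k ∈ range (N + 1), f.eval (μ k) / ∏ j ∈ (range (N + 1)).erase k, (μ k - μ j) = 0 := by
  have h1 : f.degree < #(range (N + 1)) := by
    rw [card_range]
    refine lt_of_le_of_lt degree_le_natDegree ?_
    exact_mod_cast (by omega : f.natDegree < N + 1)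
  rw [← Lagrange.coeff_eq_sum hμ h1, card_range]
  exact coeff_eq_zero_of_natDegree_lt (by omega)

/-- Karlsson-Minton type vanishing. -/
theorem km (p α e : Kˣ) (d n m M g N : ℕ) (s : ℕ → K)
    (hd : d = 2 * g + 3) (he : e ^ 2 = α * p) (hN : N + m + 1 = n) (hdeg : g * m + M < N)
    (hp : ∀ i : ℕ, 1 ≤ i → i ≤ N → ((p ^ i : Kˣ) : K) ≠ 1)
    (hα : ∀ i : ℕ, i ≤ 2 * N → ((α * p ^ i : Kˣ) : K) ≠ 1)
    (he' : ∀ z : ℤ, ((e * p ^ z : Kˣ) : K) ≠ 1)
    (E : K[X]) (hE : E = (1 - C ((p ^ (-(N : ℤ)) : Kˣ) : K) * X) * (1 - C ((e * p ^ M : Kˣ) : K) * X)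
      * ∏ i ∈ range g, (1 - C (s i) * X + C ((e ^ 2 * p ^ m : Kˣ) : K) * X ^ 2)) :
    ∑ k ∈ range n, tm p α e d n E k = 0 := by
  set P : ℤ → K := fun z => ((p ^ z : Kˣ) : K) with hPdef
  have hadd : ∀ a b, P (a + b) = P a * P b := by
    intro a b; simp only [hPdef, zpow_add, Units.val_mul]
  have h0 : P 0 = 1 := by simp [hPdef]
  have hne : ∀ z, P z ≠ 0 := fun z => Units.ne_zero _
  have hneg : ∀ z, P (-z) = (P z)⁻¹ := by
    intro z
    have := hadd z (-z)
    rw [add_neg_cancel, h0] at this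
    exact eq_inv_of_mul_eq_one_right this.symm
  have hPn : ∀ j : ℕ, ((p ^ j : Kˣ) : K) = P j := by
    intro j; simp [hPdef]
  have hPn' : ∀ j : ℕ, P j = (P 1) ^ j := by
    intro j; simp [hPdef]
  set a : K := (α : K) with ha
  set ε : K := (e : K) with hε
  have hane : a ≠ 0 := Units.ne_zero _
  have hεne : ε ≠ 0 := Units.ne_zero _
  have hεa : ε ^ 2 = a * P 1 := by
    have := congrArg (Units.val) he
    simpa [hPdef] using this
  set μ : ℕ → K := fun k => (P k)⁻¹ + a * P k with hμ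
  have hμsub : ∀ k j : ℕ, μ k - μ j = (P k)⁻¹ * ((1 - P ((k : ℤ) - j)) * (1 - a * P ((k : ℤ) + j))) := by
    intro k j
    have h1 : P ((k : ℤ) - j) = P k * (P j)⁻¹ := by
      rw [sub_eq_add_neg, hadd, hneg]
    rw [h1, hadd]
    simp only [hμ]
    have := hne k
    have := hne j
    field_simp
    ring
  have hinj : Set.InjOn μ (range (N + 1) : Finset ℕ) := by
    intro i hi j hj hij
    simp only [coe_range, Set.mem_Iio] at hi hj
    by_contra hne'
    have h1 : μ i - μ j = 0 := sub_eq_zero.2 hij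
    rw [hμsub] at h1
    rcases mul_eq_zero.1 h1 with h | h
    · exact inv_ne_zero (hne _) h
    · rcases mul_eq_zero.1 h with h | h
      · rcases lt_or_gt_of_ne hne' with hlt | hlt
        · apply hp (j - i) (by omega) (by omega)
          have h2 : P ((i : ℤ) - j) = 1 := (sub_eq_zero.1 h).symm
          have h3 : ((j - i : ℕ) : ℤ) = -((i : ℤ) - j) := by omega
          rw [hPn, h3, hneg, h2, inv_one]
        · apply hp (i - j) (by omega) (by omega)
          have h2 : P ((i : ℤ) - j) = 1 := (sub_eq_zero.1 h).symm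
          have h3 : ((i - j : ℕ) : ℤ) = ((i : ℤ) - j) := by omega
          rw [hPn, h3, h2]
      · apply hα (i + j) (by omega)
        rw [Units.val_mul, hPn]
        push_cast
        exact (sub_eq_zero.1 h).symm
  -- evaluation of E
  have hEval : ∀ x : K, E.eval x = (1 - P (-N) * x) * (1 - ε * P M * x)
      * ∏ i ∈ range g, (1 - s i * x + ε ^ 2 * P m * x ^ 2) := by
    intro x
    rw [hE]
    simp only [eval_mul, eval_sub, eval_one, eval_C, eval_X, eval_prod, eval_add, eval_pow,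
      Units.val_mul, Units.val_pow_eq_pow_val]
    simp [hPdef, hε]
  -- terms with k > N vanish
  have hbig : ∀ k ∈ Ico (N + 1) n, tm p α e d n E k = 0 := by
    intro k hk
    rw [mem_Ico] at hk
    unfold tm
    have hz : ∏ j ∈ range k, (1 - ((α * p ^ j : Kˣ) : K)) * E.eval ((p ^ j : Kˣ) : K) = 0 := by
      refine prod_eq_zero (mem_range.2 (show N < k by omega)) ?_
      rw [hEval, hPn, hneg, inv_mul_cancel₀ (hne _)]
      ring
    rw [hz]; ring
  have hsplit : ∑ k ∈ range n, tm p α e d n E k = ∑ k ∈ range (N + 1), tm p α e d n E k := by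
    rw [range_eq_Ico, range_eq_Ico, ← sum_Ico_consecutive _ (Nat.zero_le (N + 1)) (by omega : N + 1 ≤ n),
      sum_eq_zero hbig, add_zero]
  rw [hsplit]
  -- auxiliary functions
  set F : ℕ → K := fun i => 1 - a * P i with hF
  set W : ℤ → K := fun z => 1 - P z with hW
  set εe : ℕ → K := fun j => 1 - ε * P ((j : ℤ) - M) with hεe
  set εi : ℕ → ℕ → K := fun i j => 1 - s i * P ((j : ℤ) - m) + ε ^ 2 * P m * P ((j : ℤ) - m) ^ 2 with hεi
  set κ0 : K := P (-N) * (ε * P M) * (ε ^ 2 * P m) ^ g with hκ0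
  have hbar : ∀ j : ℕ, ((α * p ^ (j + 1) : Kˣ) : K) ^ (d - 1) * E.eval (((α * p ^ (j + 1))⁻¹ : Kˣ) : K)
      = κ0 * (F (j + (N + 1)) * εe j * ∏ i ∈ range g, εi i j) := by
    intro j
    have hy : (((α * p ^ (j + 1))⁻¹ : Kˣ) : K) = (a * P (j + 1))⁻¹ := by
      rw [Units.val_inv_eq_inv_val, Units.val_mul, hPn]; push_cast; rfl
    have hy2 : (((α * p ^ (j + 1)) : Kˣ) : K) = (a * P (j + 1)) := by
      rw [Units.val_mul, hPn]; push_cast; rfl
    rw [hy, hy2, hEval]
    have hd1 : d - 1 = 1 + 1 + 2 * g := by omega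
    have hyne : a * P (j + 1) ≠ 0 := mul_ne_zero hane (hne _)
    set y := a * P (j + 1) with hyy
    have hye : y = ε ^ 2 * P j := by
      rw [hyy, hadd, hεa]; ring
    have hprod : y ^ (d - 1) * ((1 - P (-N) * y⁻¹) * (1 - ε * P M * y⁻¹)
      * ∏ i ∈ range g, (1 - s i * y⁻¹ + ε ^ 2 * P m * y⁻¹ ^ 2))
       = (y - P (-N)) * (y - ε * P M) * ∏ i ∈ range g, (y ^ 2 - s i * y + ε ^ 2 * P m) := by
      have : ∏ i ∈ range g, (y ^ 2 - s i * y + ε ^ 2 * P m)
          = (y ^ 2) ^ g * ∏ i ∈ range g, (1 - s i * y⁻¹ + ε ^ 2 * P m * y⁻¹ ^ 2) := by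
        have h1 : (y ^ 2) ^ g = ∏ _i ∈ range g, y ^ 2 := by rw [prod_const, card_range]
        rw [h1, ← prod_mul_distrib]
        refine prod_congr rfl fun i _ => ?_
        field_simp
      rw [this, hd1, pow_add, pow_add, pow_one, pow_mul]
      field_simp
    rw [hprod]
    have f1 : y - P (-N) = - (P (-N) * F (j + (N + 1))) := by
      simp only [hF]
      have : P ((j + (N + 1) : ℕ) : ℤ) = P (j + 1) * P N := by
        rw [← hadd]; congr 1; push_cast; ring
      rw [this, hneg, hyy]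
      have := hne N
      field_simp
      ring
    have f2 : y - ε * P M = - (ε * P M * εe j) := by
      simp only [hεe]
      have : P ((j : ℤ) - M) = P j * (P M)⁻¹ := by rw [sub_eq_add_neg, hadd, hneg]
      rw [this, hye]
      have := hne M
      field_simp
      ring
    have f3 : ∏ i ∈ range g, (y ^ 2 - s i * y + ε ^ 2 * P m) = (ε ^ 2 * P m) ^ g * ∏ i ∈ range g, εi i j := by
      have h1 : (ε ^ 2 * P m) ^ g = ∏ _i ∈ range g, (ε ^ 2 * P m) := by rw [prod_const, card_range]
      rw [h1, ← prod_mul_distrib]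
      refine prod_congr rfl fun i _ => ?_
      simp only [hεi]
      have : P ((j : ℤ) - m) = P j * (P m)⁻¹ := by rw [sub_eq_add_neg, hadd, hneg]
      rw [this, hye]
      have := hne m
      field_simp
      ring
    rw [f1, f2, f3, hκ0]
    ring
  obtain ⟨fe, hfe, hfe'⟩ := selfF P hadd h0 a ε hεa M
  choose fi hfi hfi' using fun i : ℕ => pairF P hadd h0 a (s i) m
  set C1 : K := ∏ j ∈ Ico (n - 1) (2 * M), εe j with hC1
  have hC1ne : C1 ≠ 0 := by
    rw [hC1, prod_ne_zero_iff]
    intro j _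
    have := he' ((j : ℤ) - M)
    rw [Units.val_mul] at this
    simp only [hεe]
    intro h
    exact this (sub_eq_zero.1 h).symm
  set f : K[X] := fe * ∏ i ∈ range g, fi i with hf
  have hfdeg : f.natDegree < N := by
    refine lt_of_le_of_lt ?_ hdeg
    rw [hf, add_comm]
    refine natDegree_mul_le.trans (add_le_add hfe ?_)
    refine (natDegree_prod_le _ _).trans ((sum_le_sum fun i _ => hfi i).trans ?_)
    simp
  set CC : K := (∏ i ∈ range (N + n), F i) * ((∏ i ∈ range (n - 1), W ((i : ℤ) + 1)) * ∏ i ∈ range N, W (-((i : ℤ) + 1)))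
    * (∏ j ∈ Ico (2 * M) (n - 1), εe j) * (∏ i ∈ range g, ∏ j ∈ Ico m (n - 1), εi i j) * κ0 ^ (n - 1) with hCC
  have main : ∀ k ∈ range (N + 1), tm p α e d n E k
      = CC / C1 * (f.eval (μ k) / ∏ j ∈ (range (N + 1)).erase k, (μ k - μ j)) := by
    intro k hk
    have hkN : k ≤ N := by have := mem_range.1 hk; omega
    have hMk : ∏ j ∈ (range (N + 1)).erase k, (μ k - μ j) ≠ 0 := by
      rw [prod_ne_zero_iff]
      intro j hj
      rw [mem_erase] at hj
      intro h
      exact hj.1 (hinj (by simpa using hj.2) (by simpa using hk) (sub_eq_zero.1 h).symm)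
    have hMk' : ∏ j ∈ (range (N + 1)).erase k, (μ k - μ j) = (P k)⁻¹ ^ N *
        ((∏ j ∈ (range (N + 1)).erase k, W ((k : ℤ) - j)) * ∏ j ∈ (range (N + 1)).erase k, F (k + j)) := by
      have h1 : (P k)⁻¹ ^ N = ∏ _j ∈ (range (N + 1)).erase k, (P k)⁻¹ := by
        rw [prod_const, card_erase_of_mem hk, card_range]; rfl
      rw [h1, ← prod_mul_distrib, ← prod_mul_distrib]
      refine prod_congr rfl fun j _ => ?_
      rw [hμsub]
      simp only [hW, hF]
      push_cast
      ring
    have hA := prodA F k N n hkN (by omega)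
    have hB := prodB W k N n hkN (by omega)
    have hS := prodD εe k (2 * M) n (by omega)
    have hS2 : ∏ j ∈ Ico k (k + 2 * M), εe j = P k ^ M * fe.eval (μ k) := by
      rw [← hfe' k, prod_Ico_eq_prod_range, Nat.add_sub_cancel_left]
      refine prod_congr rfl fun l _ => ?_
      simp only [hεe]
      have : P (((k + l : ℕ) : ℤ) - M) = P ((l : ℤ) - M) * P k := by
        rw [← hadd]; congr 1; push_cast; ring
      rw [this]; ring
    have hQ : ∀ i, (∏ j ∈ range k, εi i (j + m)) * (∏ j ∈ Ico k (n - 1), εi i j)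
        = (∏ j ∈ Ico m (n - 1), εi i j) * (P k ^ m * (fi i).eval (μ k)) := by
      intro i
      have h1 := prodD (εi i) k m n (by omega)
      rw [Ico_eq_empty_of_le (show m ≤ n - 1 by omega), prod_empty, mul_one] at h1
      rw [h1, ← hfi' i k, prod_Ico_eq_prod_range _ k (k + m), Nat.add_sub_cancel_left]
      congr 1
      refine prod_congr rfl fun l _ => ?_
      simp only [hεi]
      have e1 : P (((k + l : ℕ) : ℤ) - m) = P ((l : ℤ) - m) * P k := by
        rw [← hadd]; congr 1; push_cast; ring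
      have e2 : P (2 * (l : ℤ) + 1 - m) = P 1 * P m * P ((l : ℤ) - m) ^ 2 := by
        rw [sq, ← hadd, ← hadd, ← hadd]; congr 1; ring
      rw [e1, e2, hεa]; ring
    have hQ' : (∏ i ∈ range g, ∏ j ∈ range k, εi i (j + m)) * (∏ i ∈ range g, ∏ j ∈ Ico k (n - 1), εi i j)
        = (∏ i ∈ range g, ∏ j ∈ Ico m (n - 1), εi i j) * (P k ^ (g * m) * ∏ i ∈ range g, (fi i).eval (μ k)) := by
      have h1 : P k ^ (g * m) = ∏ _i ∈ range g, P k ^ m := by
        rw [prod_const, card_range, mul_comm g m, pow_mul]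
      rw [← prod_mul_distrib, h1, ← prod_mul_distrib, ← prod_mul_distrib]
      exact prod_congr rfl fun i _ => hQ i
    have hκ : ε ^ ((d - 2) * k) * (P k ^ (M + g * m)) * (P k)⁻¹ ^ N = κ0 ^ k := by
      have hd2 : d - 2 = 2 * g + 1 := by omega
      rw [hκ0, hd2, hneg, hPn' k, hPn' M, hPn' m, hPn' N]
      have := hne 1
      generalize P 1 = π at *
      have e1 : (ε ^ 2 * π ^ m) ^ g = ε ^ (2 * g) * π ^ (m * g) := by
        rw [mul_pow, ← pow_mul, ← pow_mul]
      rw [e1]
      field_simp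
      ring
    have htm : tm p α e d n E k = F (k + k) * ε ^ ((d - 2) * k) * ((∏ j ∈ range k, F j)
        * ((∏ j ∈ range k, W ((j : ℤ) - N)) * (∏ j ∈ range k, εe (j + 2 * M))
          * ∏ i ∈ range g, ∏ j ∈ range k, εi i (j + m)))
        * ((∏ j ∈ Ico k (n - 1), W ((j : ℤ) + 1)) * (κ0 ^ (n - 1 - k) * ((∏ j ∈ Ico k (n - 1), F (j + (N + 1)))
          * (∏ j ∈ Ico k (n - 1), εe j) * ∏ i ∈ range g, ∏ j ∈ Ico k (n - 1), εi i j))) := by
      unfold tm
      congr 1
      · congr 1
        · congr 1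
          · rw [Units.val_mul, hPn]
            simp only [hF]
            push_cast
            rw [two_mul]
        · rw [prod_comm (s := range g), ← prod_mul_distrib, ← prod_mul_distrib, ← prod_mul_distrib]
          refine prod_congr rfl fun j _ => ?_
          rw [Units.val_mul, hPn, hEval]
          simp only [hF, hW, hεe, hεi]
          have e1 : P ((j : ℤ) - N) = P (-N) * P j := by rw [← hadd]; congr 1; ring
          have e2 : P (((j + 2 * M : ℕ) : ℤ) - M) = P M * P j := by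
            rw [← hadd]; congr 1; push_cast; ring
          have e3 : ((j + m : ℕ) : ℤ) - m = j := by push_cast; ring
          rw [e1, e2, e3]
          ring
      · have h1 : κ0 ^ (n - 1 - k) = ∏ _j ∈ Ico k (n - 1), κ0 := by
          rw [prod_const, Nat.card_Ico]
        rw [h1, prod_comm (s := range g), ← prod_mul_distrib, ← prod_mul_distrib, ← prod_mul_distrib,
          ← prod_mul_distrib]
        refine prod_congr rfl fun j _ => ?_
        rw [hbar, hPn]
        simp only [hW]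
        push_cast
        ring
    rw [div_mul_div_comm, eq_div_iff (mul_ne_zero hC1ne hMk), htm, hMk', hCC, hf, eval_mul, eval_prod,
      ← hA, ← hB]
    have hpw : κ0 ^ (n - 1) = κ0 ^ (n - 1 - k) * κ0 ^ k := by
      rw [← pow_add]; congr 1; omega
    rw [hpw, ← hκ]
    have hpw2 : P k ^ (M + g * m) = P k ^ M * P k ^ (g * m) := pow_add _ _ _
    rw [hpw2]
    rw [hS2] at hS
    linear_combination (exp := 1)
      (F (k + k) * ε ^ ((d - 2) * k) * (∏ j ∈ range k, F j) * (∏ j ∈ range k, W ((j : ℤ) - N))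
        * (∏ j ∈ Ico k (n - 1), W ((j : ℤ) + 1)) * κ0 ^ (n - 1 - k) * (∏ j ∈ Ico k (n - 1), F (j + (N + 1)))
        * (P k)⁻¹ ^ N * (∏ j ∈ (range (N + 1)).erase k, W ((k : ℤ) - j)) * (∏ j ∈ (range (N + 1)).erase k, F (k + j)))
       * ((∏ i ∈ range g, ∏ j ∈ range k, εi i (j + m)) * (∏ i ∈ range g, ∏ j ∈ Ico k (n - 1), εi i j) * hS
         + ((∏ j ∈ Ico (2 * M) (n - 1), εe j) * (P k ^ M * fe.eval (μ k))) * hQ')
  rw [sum_congr rfl main, ← mul_sum, divdiff μ N hinj f hfdeg, mul_zero]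

end N719QC
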